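import Pool.Agent.Lib.MP_ef3f0f_gt.III.Defs
import Pool.Agent.Lib.MP_ef3f0f_gt.N.Spec

set_option autoImplicit false

/-!
# MP_ef3f0f_gt, windows in `SL₂(ℝ)`: definitions
-/

namespace Pool.Agent.MPEF

open scoped Pointwise

/-- Unit vector of direction `θ`. -/
noncomputable def dir (θ : ℝ) : V2 := ![Real.cos θ, Real.sin θ]

/-- Rotation by `θ`. -/
noncomputable def rot (θ : ℝ) : SL2 :=
  ⟨!![Real.cos θ, -Real.sin θ; Real.sin θ, Real.cos θ], by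
    rw [Matrix.det_fin_two_of]; nlinarith [Real.sin_sq_add_cos_sq θ]⟩

/-- `diag(e^x, e^{-x})`. -/
noncomputable def dgx (x : ℝ) : SL2 :=
  ⟨!![Real.exp x, 0; 0, Real.exp (-x)], by
    rw [Matrix.det_fin_two_of, ← Real.exp_add]; simp⟩

/-- The matrix with singular directions `s`, `t` and singular values `e^x`, `e^{-x}`. -/
noncomputable def gm (s t x : ℝ) : SL2 := rot s * dgx x * rot (-t)

/-- Norm of the component of the rows orthogonal to the direction `θ`: `‖ξ_θ^⊥ᵀ A‖`. -/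
noncomputable def rowN (θ : ℝ) (A : M2) : ℝ :=
  Real.sqrt ((-Real.sin θ * A 0 0 + Real.cos θ * A 1 0) ^ 2 +
    (-Real.sin θ * A 0 1 + Real.cos θ * A 1 1) ^ 2)

/-- `‖A η_θ^⊥‖`. -/
noncomputable def colN (θ : ℝ) (A : M2) : ℝ :=
  Real.sqrt ((-Real.sin θ * A 0 0 + Real.cos θ * A 0 1) ^ 2 +
    (-Real.sin θ * A 1 0 + Real.cos θ * A 1 1) ^ 2)

/-- Angle of the first index. -/
noncomputable def aα (a : Ty) : ℝ := Real.pi * (a.1.val : ℝ) / 5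

/-- Angle of the second index. -/
noncomputable def aβ (j : Fin 16) : ℝ := Real.pi * (j.val : ℝ) / 16

/-- The windows. -/
def winS (M : ℕ) (a : Ty) (l : ℕ) : Set SL2 :=
  {g | rowN (aα a) g.1 < (156 / 1000 - (l : ℝ) / 1000) * nrm g.1 ∧
    colN (aβ a.2) g.1 < (175 / 1000 - (l : ℝ) / 1000) * nrm g.1 ∧
    10 ^ 4 * (1 + (l : ℝ) / 1000) < nrm g.1 ∧ nrm g.1 * (1 + (l : ℝ) / 1000) < (M : ℝ)}

/-- Radii of the small balls. -/
noncomputable def rB (k : ℕ) : ℝ := (1 + 1 / 10 ^ 7) ^ (2 ^ k) - 1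

/-- The geometry of `SL₂(ℝ)`. -/
noncomputable def geoSL : Geo SL2 where
  B := fun k => Bs (rB k)
  Om := winS
  Mid := fun M a => winS M a 2 ∩
    {g | Real.sqrt (10 ^ 4 * (M : ℝ)) / 2 < nrm g.1 ∧ nrm g.1 < 2 * Real.sqrt (10 ^ 4 * (M : ℝ))}
  Tr := fun M => {g | 2 * 10 ^ 8 ≤ |tr2 g| ∧ |tr2 g| ≤ (M : ℝ) ^ 2 / 2}
  Hyp := {l | 2 < |tr2 l|}

end Pool.Agent.MPEF
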