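import Pool.Agent.Lib.MP_ef3f0f_gt.W.Spec

set_option autoImplicit false

/-!
# MP_ef3f0f_gt, windows: the pants condition in angles
-/

namespace Pool.Agent.MPEF

open scoped Pointwise

private theorem PHang_rot (s : ℝ) (v : V2) : rot s • v =
    ![Real.cos s * v 0 - Real.sin s * v 1, Real.sin s * v 0 + Real.cos s * v 1] := by
  ext i
  fin_cases i
  · show ((rot s).1.mulVec v) 0 = _
    simp [rot, Matrix.mulVec, dotProduct, Fin.sum_univ_two]
    ring
  · show ((rot s).1.mulVec v) 1 = _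
    simp [rot, Matrix.mulVec, dotProduct, Fin.sum_univ_two]

/-- The vector `p dir(s) + q dir(s + π/2)`. -/
private noncomputable def PHang_W (s p q : ℝ) : V2 :=
  ![Real.cos s * p - Real.sin s * q, Real.sin s * p + Real.cos s * q]

private theorem PHang_det (s s' p q p' q' : ℝ) : det2 (PHang_W s p q) (PHang_W s' p' q') =
    (p * p' + q * q') * Real.sin (s' - s) + (p * q' - q * p') * Real.cos (s' - s) := by
  rw [Real.sin_sub, Real.cos_sub]
  simp only [det2, PHang_W, Matrix.cons_val_zero, Matrix.cons_val_one]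
  ring

private theorem PHang_dir (s : ℝ) : dir s = PHang_W s 1 0 := by
  simp [dir, PHang_W]

/-- The first coordinate (before the last rotation). -/
private noncomputable def PHang_p (θ s' t x' t' : ℝ) : ℝ :=
  Real.cos (t' - t) * (Real.exp (-x') * Real.cos (θ - s')) -
    Real.sin (t' - t) * (Real.exp x' * Real.sin (θ - s'))

/-- The second coordinate (before the last rotation). -/
private noncomputable def PHang_q (θ s' t x' t' : ℝ) : ℝ :=
  Real.sin (t' - t) * (Real.exp (-x') * Real.cos (θ - s')) +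
    Real.cos (t' - t) * (Real.exp x' * Real.sin (θ - s'))

private theorem PHang_act (h : S_gm) (θ s t x s' t' x' : ℝ) :
    (gm s t x * (gm s' t' x')⁻¹) • dir θ =
      PHang_W s (Real.exp x * PHang_p θ s' t x' t') (Real.exp (-x) * PHang_q θ s' t x' t') := by
  obtain ⟨-, -, -, -, -, -, h1, h2, h3, h4, -⟩ := h
  have e1 : (gm s' t' x')⁻¹ = rot t' * dgx (-x') * rot (-s') := by
    unfold gm
    rw [mul_inv_rev, mul_inv_rev, h2, h2, h3, neg_neg, ← mul_assoc]
  rw [e1]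
  unfold gm
  rw [mul_smul, mul_smul, mul_smul, mul_smul, mul_smul, h1, h4, PHang_rot, PHang_rot, h4,
    PHang_rot]
  have e2 : θ + -s' = θ - s' := by ring
  simp only [dir, Matrix.cons_val_zero, Matrix.cons_val_one, e2, neg_neg, Real.cos_neg,
    Real.sin_neg, PHang_W, PHang_p, PHang_q, Real.cos_sub t' t, Real.sin_sub t' t]
  ext i
  fin_cases i
  · simp only [Fin.zero_eta, Matrix.cons_val_zero]
    ring
  · simp only [Fin.mk_one, Matrix.cons_val_one]
    ring_nf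

private theorem PHang_exp (x : ℝ) (hx : 9 ≤ x) :
    7000 ≤ Real.exp x ∧ 0 < Real.exp (-x) ∧ Real.exp (-x) ≤ 1 / 49000000 * Real.exp x := by
  have h1 : (7000 : ℝ) ≤ Real.exp x := by
    have h2 : Real.exp 9 = Real.exp 1 ^ 9 := by
      rw [← Real.exp_nat_mul]
      norm_num
    have h3 : (27 / 10 : ℝ) ≤ Real.exp 1 := by
      have := Real.exp_one_gt_d9
      linarith
    have h4 : (27 / 10 : ℝ) ^ 9 ≤ Real.exp 1 ^ 9 := pow_le_pow_left₀ (by norm_num) h3 9
    have h5 : Real.exp 9 ≤ Real.exp x := Real.exp_le_exp.2 hx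
    have h6 : (7000 : ℝ) ≤ (27 / 10) ^ 9 := by norm_num
    linarith
  refine ⟨h1, Real.exp_pos _, ?_⟩
  have h2 : Real.exp (-x) ≤ 1 / 7000 := by
    rw [Real.exp_neg, ← one_div]
    exact one_div_le_one_div_of_le (by norm_num) h1
  linarith

private theorem PHang_abs3 (a b c : ℝ) (ha : |a| ≤ 1) (hb : |b| ≤ 1) (hc : |c| ≤ 1) :
    |a * b * c| ≤ 1 := by
  rw [abs_mul, abs_mul]
  have h1 : |a| * |b| ≤ 1 := mul_le_one₀ ha (abs_nonneg _) hb
  exact mul_le_one₀ h1 (abs_nonneg _) hc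

private theorem PHang_scale (k X : ℝ) (hk : |k| ≤ 1) (hX : 0 ≤ X) : X * k ≤ X ∧ -X ≤ X * k := by
  obtain ⟨h1, h2⟩ := abs_le.1 hk
  constructor
  · nlinarith
  · nlinarith

/-- The traces. -/
private theorem PHang_tr (h : S_gm) (s t x s' t' x' : ℝ) (hx : 9 ≤ x) (hx' : 9 ≤ x')
    (hs : 3 / 10 ≤ Real.sin (s' - s)) (ht : 39 / 1000 ≤ Real.sin (t - t')) :
    tr2 (gm s t x * (gm s' t' x')⁻¹) < -2 := by
  obtain ⟨-, -, -, h1, -⟩ := h
  rw [h1]
  obtain ⟨a1, a2, a3⟩ := PHang_exp x hx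
  obtain ⟨b1, b2, b3⟩ := PHang_exp x' hx'
  have e1 : 2 * Real.cosh (x - x') = Real.exp x * Real.exp (-x') + Real.exp x' * Real.exp (-x) := by
    rw [Real.cosh_eq, ← Real.exp_add, ← Real.exp_add]
    ring_nf
  have e2 : 2 * Real.cosh (x + x') =
      Real.exp x * Real.exp x' + Real.exp (-x) * Real.exp (-x') := by
    rw [Real.cosh_eq, ← Real.exp_add, ← Real.exp_add]
    ring_nf
  rw [e1, e2]
  set X := Real.exp x
  set X' := Real.exp x'
  set Y := Real.exp (-x)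
  set Y' := Real.exp (-x')
  have hc : |Real.cos (s - s') * Real.cos (t - t')| ≤ 1 := by
    rw [abs_mul]
    exact mul_le_one₀ (Real.abs_cos_le_one _) (abs_nonneg _) (Real.abs_cos_le_one _)
  have hss : Real.sin (s - s') = - Real.sin (s' - s) := by
    rw [← Real.sin_neg]
    ring_nf
  have hs1 : Real.sin (s - s') * Real.sin (t - t') ≤ -(117 / 10000) := by
    rw [hss]
    nlinarith
  have hXX : 49000000 ≤ X * X' := by nlinarith
  have hXY : X * Y' ≤ 1 / 49000000 * (X * X') := by nlinarith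
  have hYX : X' * Y ≤ 1 / 49000000 * (X * X') := by nlinarith
  have hXY0 : 0 ≤ X * Y' + X' * Y := by positivity
  have h2 := (PHang_scale _ _ hc hXY0).1
  have h3 : (X * X' + Y * Y') * (Real.sin (s - s') * Real.sin (t - t')) ≤
      (X * X') * (-(117 / 10000)) := by
    have h4 : 0 ≤ Y * Y' := by positivity
    nlinarith
  nlinarith

/-- Displacement of a direction. -/
private theorem PHang_disp (h : S_gm) (θ s t x s' t' x' : ℝ) (hx : 9 ≤ x) (hx' : 9 ≤ x')
    (hs : 15 / 100 ≤ Real.sin (s - θ)) (hs' : 15 / 100 ≤ Real.sin (s' - θ))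
    (ht : 39 / 1000 ≤ Real.sin (t - t')) :
    det2 (dir θ) ((gm s t x * (gm s' t' x')⁻¹) • dir θ) < 0 := by
  rw [PHang_act h, PHang_dir θ, PHang_det]
  unfold PHang_p PHang_q
  obtain ⟨a1, a2, a3⟩ := PHang_exp x hx
  obtain ⟨b1, b2, b3⟩ := PHang_exp x' hx'
  set X := Real.exp x
  set X' := Real.exp x'
  set Y := Real.exp (-x)
  set Y' := Real.exp (-x')
  have e1 : Real.sin (t' - t) = - Real.sin (t - t') := by
    rw [← Real.sin_neg]
    ring_nf
  have e2 : Real.sin (θ - s') = - Real.sin (s' - θ) := by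
    rw [← Real.sin_neg]
    ring_nf
  rw [e1, e2]
  have c1 := Real.abs_cos_le_one (t' - t)
  have c2 := Real.abs_cos_le_one (θ - s')
  have c3 := Real.abs_cos_le_one (s - θ)
  have s1 := Real.abs_sin_le_one (t - t')
  have s2 := Real.abs_sin_le_one (s' - θ)
  have s3 := Real.abs_sin_le_one (s - θ)
  set τ := Real.sin (t - t')
  set S' := Real.sin (s' - θ)
  set S := Real.sin (s - θ)
  set cb := Real.cos (t' - t)
  set c' := Real.cos (θ - s')
  set c := Real.cos (s - θ)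
  have hXX : 0 < X * X' := by nlinarith
  have hXY : X * Y' ≤ 1 / 49000000 * (X * X') := by nlinarith
  have hYX : Y * X' ≤ 1 / 49000000 * (X * X') := by nlinarith
  have hYY : Y * Y' ≤ 1 / 49000000 * (X * X') := by nlinarith
  have k1 := (PHang_scale _ (X * Y') (PHang_abs3 cb c' S c1 c2 s3) (by positivity)).1
  have k2 := (PHang_scale _ (Y * Y') (PHang_abs3 τ c' c s1 c2 c3) (by positivity)).2
  have k3 := (PHang_scale _ (Y * X') (PHang_abs3 cb S' c c1 s2 c3) (by positivity)).2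
  have m1 : 15 / 100 * (15 / 100) ≤ S * S' := by nlinarith
  have m2 : 39 / 1000 * (15 / 100 * (15 / 100)) ≤ τ * (S * S') := by nlinarith
  have m3 : X * X' * (39 / 1000 * (15 / 100 * (15 / 100))) ≤ X * X' * (τ * (S * S')) :=
    mul_le_mul_of_nonneg_left m2 hXX.le
  nlinarith

/-- The final estimate. -/
private theorem PHang_fin (Xu Yu Xv Yv Z Pv Qv Pu Qu σ κ : ℝ) (hZ : 0 < Z) (hXu : 7000 ≤ Xu)
    (hXv : 7000 ≤ Xv) (hYu : 0 < Yu) (hYv : 0 < Yv) (a3 : Yu ≤ 1 / 49000000 * Xu)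
    (b3 : Yv ≤ 1 / 49000000 * Xv) (v1 : Pv ≤ -(58 / 10000) * Z) (v2 : |Pv| ≤ 2 * Z)
    (v3 : |Qv| ≤ 2 * Z) (u1 : Pu ≤ -(58 / 10000) * Z) (u2 : |Pu| ≤ 2 * Z) (u3 : |Qu| ≤ 2 * Z)
    (hs : 3 / 10 ≤ σ) (s1 : σ ≤ 1) (c1 : |κ| ≤ 1) :
    (Xv * Pv * (Xu * Pu) + Yv * Qv * (Yu * Qu)) * -σ +
      (Xv * Pv * (Yu * Qu) - Yv * Qv * (Xu * Pu)) * κ < 0 := by
  have hXX : 0 < Xv * Xu := by positivity
  have hZZ : 0 < Z * Z := by positivity
  obtain ⟨E, hE⟩ : ∃ E, E = Xv * Xu * (Z * Z) := ⟨_, rfl⟩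
  have hEpos : 0 < E := by rw [hE]; positivity
  have p1 : (58 / 10000) ^ 2 * (Z * Z) ≤ Pv * Pu := by nlinarith
  have q1 : |Qv * Qu| ≤ 4 * (Z * Z) := by
    rw [abs_mul]
    calc |Qv| * |Qu| ≤ (2 * Z) * (2 * Z) := mul_le_mul v3 u3 (abs_nonneg _) (by linarith)
      _ = 4 * (Z * Z) := by ring
  have r1 : |Pv * Qu| ≤ 4 * (Z * Z) := by
    rw [abs_mul]
    calc |Pv| * |Qu| ≤ (2 * Z) * (2 * Z) := mul_le_mul v2 u3 (abs_nonneg _) (by linarith)
      _ = 4 * (Z * Z) := by ring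
  have r2 : |Qv * Pu| ≤ 4 * (Z * Z) := by
    rw [abs_mul]
    calc |Qv| * |Pu| ≤ (2 * Z) * (2 * Z) := mul_le_mul v3 u2 (abs_nonneg _) (by linarith)
      _ = 4 * (Z * Z) := by ring
  have y1 : Yv * Yu ≤ 1 / 49000000 * (Xv * Xu) := by nlinarith
  have y2 : Xv * Yu ≤ 1 / 49000000 * (Xv * Xu) := by nlinarith
  have y3 : Yv * Xu ≤ 1 / 49000000 * (Xv * Xu) := by nlinarith
  have g1 : (58 / 10000) ^ 2 * E ≤ Xv * Xu * (Pv * Pu) := by
    rw [hE]
    calc (58 / 10000) ^ 2 * (Xv * Xu * (Z * Z)) = Xv * Xu * ((58 / 10000) ^ 2 * (Z * Z)) := by ring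
      _ ≤ Xv * Xu * (Pv * Pu) := mul_le_mul_of_nonneg_left p1 hXX.le
  have hb : ∀ y w : ℝ, 0 ≤ y → y ≤ 1 / 49000000 * (Xv * Xu) → |w| ≤ 4 * (Z * Z) →
      |y * w| ≤ 4 / 49000000 * E := by
    intro y w hy0 hy hw
    rw [abs_mul, abs_of_nonneg hy0]
    calc y * |w| ≤ (1 / 49000000 * (Xv * Xu)) * (4 * (Z * Z)) :=
          mul_le_mul hy hw (abs_nonneg _) (by positivity)
      _ = 4 / 49000000 * E := by rw [hE]; ring
  have g2 := hb _ _ (by positivity) y1 q1
  have g3 := hb _ _ (by positivity) y2 r1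
  have g4 := hb _ _ (by positivity) y3 r2
  have hσ0 : 0 ≤ σ := by linarith
  have hσ1 : |σ| ≤ 1 := by
    rw [abs_of_nonneg hσ0]
    exact s1
  have t1 : 3 / 10 * ((58 / 10000) ^ 2 * E) ≤ Xv * Xu * (Pv * Pu) * σ := by
    have h5 : 0 ≤ (58 / 10000 : ℝ) ^ 2 * E := by positivity
    nlinarith
  have t2 : |Yv * Yu * (Qv * Qu) * σ| ≤ 4 / 49000000 * E := by
    rw [abs_mul]
    exact (mul_le_of_le_one_right (abs_nonneg _) hσ1).trans g2
  have t3 : |Xv * Yu * (Pv * Qu) * κ| ≤ 4 / 49000000 * E := by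
    rw [abs_mul]
    exact (mul_le_of_le_one_right (abs_nonneg _) c1).trans g3
  have t4 : |Yv * Xu * (Qv * Pu) * κ| ≤ 4 / 49000000 * E := by
    rw [abs_mul]
    exact (mul_le_of_le_one_right (abs_nonneg _) c1).trans g4
  have f2 := (abs_le.1 t2).1
  have f3 := (abs_le.1 t3).2
  have f4 := (abs_le.1 t4).1
  have hfin : (Xv * Pv * (Xu * Pu) + Yv * Qv * (Yu * Qu)) * -σ +
      (Xv * Pv * (Yu * Qu) - Yv * Qv * (Xu * Pu)) * κ =
      -(Xv * Xu * (Pv * Pu) * σ) - Yv * Yu * (Qv * Qu) * σ + Xv * Yu * (Pv * Qu) * κ -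
        Yv * Xu * (Qv * Pu) * κ := by ring
  rw [hfin]
  nlinarith

/-- The two images of the base point. -/
private theorem PHang_two (h : S_gm) (θ su tu xu sv tv xv sw tw xw : ℝ) (hxu : 9 ≤ xu)
    (hxv : 9 ≤ xv) (hxw : 9 ≤ xw) (hsw : 15 / 100 ≤ Real.sin (sw - θ))
    (hs : 3 / 10 ≤ Real.sin (sv - su)) (htv : 39 / 1000 ≤ Real.sin (tv - tw))
    (htu : 39 / 1000 ≤ Real.sin (tu - tw)) :
    det2 ((gm sv tv xv * (gm sw tw xw)⁻¹) • dir θ)
      ((gm su tu xu * (gm sw tw xw)⁻¹) • dir θ) < 0 := by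
  rw [PHang_act h, PHang_act h, PHang_det]
  obtain ⟨a1, a2, a3⟩ := PHang_exp xu hxu
  obtain ⟨b1, b2, b3⟩ := PHang_exp xv hxv
  obtain ⟨d1, d2, d3⟩ := PHang_exp xw hxw
  -- bounds for the coordinates
  have hpq : ∀ t, 39 / 1000 ≤ Real.sin (t - tw) →
      PHang_p θ sw t xw tw ≤ -(58 / 10000) * Real.exp xw ∧
      |PHang_p θ sw t xw tw| ≤ 2 * Real.exp xw ∧ |PHang_q θ sw t xw tw| ≤ 2 * Real.exp xw := by
    intro t ht
    unfold PHang_p PHang_q
    have e1 : Real.sin (tw - t) = - Real.sin (t - tw) := by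
      rw [← Real.sin_neg]
      ring_nf
    have e2 : Real.sin (θ - sw) = - Real.sin (sw - θ) := by
      rw [← Real.sin_neg]
      ring_nf
    rw [e1, e2]
    have c1 := Real.abs_cos_le_one (tw - t)
    have c2 := Real.abs_cos_le_one (θ - sw)
    have s1 := Real.abs_sin_le_one (t - tw)
    have s2 := Real.abs_sin_le_one (sw - θ)
    have o1 : |(1 : ℝ)| ≤ 1 := by simp
    set τ := Real.sin (t - tw)
    set S' := Real.sin (sw - θ)
    set cb := Real.cos (tw - t)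
    set c' := Real.cos (θ - sw)
    set X := Real.exp xw
    set Y := Real.exp (-xw)
    have hX : 0 ≤ X := by linarith
    have k1 := PHang_scale _ Y (PHang_abs3 cb c' 1 c1 c2 o1) d2.le
    have k2 := PHang_scale _ X (PHang_abs3 τ S' 1 s1 s2 o1) hX
    have k3 := PHang_scale _ Y (PHang_abs3 τ c' 1 s1 c2 o1) d2.le
    have k4 := PHang_scale _ X (PHang_abs3 cb S' 1 c1 s2 o1) hX
    have m2 : 39 / 1000 * (15 / 100) ≤ τ * S' := by nlinarith
    have m3 : X * (39 / 1000 * (15 / 100)) ≤ X * (τ * S') := mul_le_mul_of_nonneg_left m2 hX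
    refine ⟨?_, ?_, ?_⟩
    · nlinarith
    · rw [abs_le]
      constructor
      · nlinarith
      · nlinarith
    · rw [abs_le]
      constructor
      · nlinarith
      · nlinarith
  obtain ⟨v1, v2, v3⟩ := hpq tv htv
  obtain ⟨u1, u2, u3⟩ := hpq tu htu
  have e3 : Real.sin (su - sv) = - Real.sin (sv - su) := by
    rw [← Real.sin_neg]
    ring_nf
  rw [e3]
  have c1 := Real.abs_cos_le_one (su - sv)
  have s1 := Real.sin_le_one (sv - su)
  set κ := Real.cos (su - sv)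
  set σ := Real.sin (sv - su)
  set Pv := PHang_p θ sw tv xw tw
  set Qv := PHang_q θ sw tv xw tw
  set Pu := PHang_p θ sw tu xw tw
  set Qu := PHang_q θ sw tu xw tw
  set Xu := Real.exp xu
  set Yu := Real.exp (-xu)
  set Xv := Real.exp xv
  set Yv := Real.exp (-xv)
  set Z := Real.exp xw
  exact PHang_fin Xu Yu Xv Yv Z Pv Qv Pu Qu σ κ (by linarith) a1 b1 a2 b2 a3 b3 v1 v2 v3 u1 u2 u3
    hs s1 c1

theorem tPHang (h : S_gm) : S_PHang := by
  intro θ su sv sw tu tv tw xu xv xw hxu hxv hxw hu hv hw hvu hwv hwu htvw htuv htuw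
  have hab : gm su tu xu * (gm sv tv xv)⁻¹ * (gm sv tv xv * (gm sw tw xw)⁻¹) =
      gm su tu xu * (gm sw tw xw)⁻¹ := by
    rw [mul_assoc, inv_mul_cancel_left]
  have habp : (gm su tu xu * (gm sv tv xv)⁻¹) • (gm sv tv xv * (gm sw tw xw)⁻¹) • dir θ =
      (gm su tu xu * (gm sw tw xw)⁻¹) • dir θ := by
    rw [← mul_smul, hab]
  have ta := PHang_tr h su tu xu sv tv xv hxu hxv hvu htuv
  have tb := PHang_tr h sv tv xv sw tw xw hxv hxw hwv htvw
  have tc := PHang_tr h su tu xu sw tw xw hxu hxw hwu htuw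
  have db := PHang_disp h θ sv tv xv sw tw xw hxv hxw hv hw htvw
  have dc := PHang_disp h θ su tu xu sw tw xw hxu hxw hu hw htuw
  have dd := PHang_two h θ su tu xu sv tv xv sw tw xw hxu hxv hxw hw hvu htvw htuw
  refine ⟨?_, ?_, ?_, ?_, ?_, ?_, ?_⟩
  · rw [abs_of_neg (by linarith)]
    linarith
  · rw [abs_of_neg (by linarith)]
    linarith
  · rw [hab, abs_of_neg (by linarith)]
    linarith
  · rw [habp]
    exact mul_pos_of_neg_of_neg (by linarith) dd
  · exact mul_pos_of_neg_of_neg (by linarith) db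
  · rw [habp, hab]
    exact mul_pos_of_neg_of_neg (by linarith) dc
  · unfold cyc
    rw [habp]
    have e1 : det2 ((gm su tu xu * (gm sw tw xw)⁻¹) • dir θ)
        ((gm sv tv xv * (gm sw tw xw)⁻¹) • dir θ) =
        - det2 ((gm sv tv xv * (gm sw tw xw)⁻¹) • dir θ)
          ((gm su tu xu * (gm sw tw xw)⁻¹) • dir θ) := by
      unfold det2
      ring
    rw [e1]
    apply mul_pos_of_neg_of_neg _ db
    exact mul_neg_of_neg_of_pos dc (by linarith)

end Pool.Agent.MPEF
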