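import Pool.Agent.Lib.MP_ef3f0f_gt.W.Spec

set_option autoImplicit false

namespace Pool.Agent.MPEF

open scoped Pointwise

private theorem pw_sm (g : SL2) (x : V2) (i : Fin 2) :
    (g • x) i = g.1 i 0 * x 0 + g.1 i 1 * x 1 := by
  have h : g • x = g.1.mulVec x := rfl
  rw [h, Matrix.mulVec, dotProduct, Fin.sum_univ_two]

private theorem pw_inv (g h : SL2) (e : ℝ) (hg : g.1 = e • h.1) : (g⁻¹).1 = e • (h⁻¹).1 := by
  rw [Matrix.SpecialLinearGroup.coe_inv, Matrix.SpecialLinearGroup.coe_inv, hg,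
    Matrix.adjugate_fin_two, Matrix.adjugate_fin_two]
  ext i j
  fin_cases i <;> fin_cases j <;> simp

private theorem pw_mul (g h g' h' : SL2) (e e' : ℝ) (hg : g.1 = e • h.1) (hg' : g'.1 = e' • h'.1) :
    (g * g').1 = (e * e') • (h * h').1 := by
  rw [Matrix.SpecialLinearGroup.coe_mul, Matrix.SpecialLinearGroup.coe_mul, hg, hg',
    Matrix.smul_mul, Matrix.mul_smul, smul_smul]

private theorem pw_sg (a b a' b' : SL2) (p : V2) (e f : ℝ) (he : e * e = 1) (hf : f * f = 1)
    (ha : a'.1 = e • a.1) (hb : b'.1 = f • b.1) (h : PH a b p) : PH a' b' p := by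
  have hab := pw_mul a' a b' b e f ha hb
  have tre : ∀ (g g' : SL2) (c : ℝ), g'.1 = c • g.1 → tr2 g' = c * tr2 g := by
    intro g g' c hc
    unfold tr2
    rw [hc]
    simp only [Matrix.smul_apply, smul_eq_mul]
    ring
  have ab : ∀ c x : ℝ, c * c = 1 → |c * x| = |x| := by
    intro c x hc
    have : |c| = 1 := by
      rcases mul_self_eq_one_iff.mp hc with h | h <;> rw [h] <;> simp
    rw [abs_mul, this, one_mul]
  have hef : (e * f) * (e * f) = 1 := by
    calc (e * f) * (e * f) = (e * e) * (f * f) := by ring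
      _ = 1 := by rw [he, hf, one_mul]
  have ep : ∀ (g g' : SL2) (c d : ℝ) (x x' : V2), g'.1 = c • g.1 → x' = d • x →
      g' • x' = (c * d) • (g • x) := by
    intro g g' c d x x' hc hx
    ext i
    rw [pw_sm, hc, hx]
    simp only [Matrix.smul_apply, smul_eq_mul, Pi.smul_apply, pw_sm]
    ring
  have hbp : b' • p = f • (b • p) := by
    have := ep b b' f 1 p p hb (by simp)
    rwa [mul_one] at this
  have habp : a' • b' • p = (e * f) • (a • b • p) := ep a a' e f (b • p) (b' • p) ha hbp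
  have d2 : ∀ (c d : ℝ) (x y : V2), det2 (c • x) (d • y) = (c * d) * det2 x y := by
    intro c d x y
    unfold det2
    simp only [Pi.smul_apply, smul_eq_mul]
    ring
  have d2l : ∀ (d : ℝ) (x y : V2), det2 x (d • y) = d * det2 x y := by
    intro d x y
    unfold det2
    simp only [Pi.smul_apply, smul_eq_mul]
    ring
  refine ⟨?_, ?_, ?_, ?_, ?_, ?_, ?_⟩
  · rw [tre a a' e ha, ab _ _ he]; exact h.ta
  · rw [tre b b' f hb, ab _ _ hf]; exact h.tb
  · rw [tre (a * b) (a' * b') (e * f) hab, ab _ _ hef]; exact h.tc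
  · rw [tre a a' e ha, habp, hbp, d2]
    have : e * tr2 a * (f * (e * f) * det2 (b • p) (a • b • p)) =
        (e * e) * (f * f) * (tr2 a * det2 (b • p) (a • b • p)) := by ring
    rw [this, he, hf, one_mul, one_mul]
    exact h.pa
  · rw [tre b b' f hb, hbp, d2l]
    have : f * tr2 b * (f * det2 p (b • p)) = (f * f) * (tr2 b * det2 p (b • p)) := by ring
    rw [this, hf, one_mul]
    exact h.pb
  · rw [tre (a * b) (a' * b') (e * f) hab, habp, d2l]
    have : e * f * tr2 (a * b) * (e * f * det2 p (a • b • p)) =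
        ((e * f) * (e * f)) * (tr2 (a * b) * det2 p (a • b • p)) := by ring
    rw [this, hef, one_mul]
    exact h.pc
  · have hc := h.cy
    unfold cyc at hc ⊢
    rw [habp, hbp, d2l, d2, d2l]
    have : e * f * det2 p (a • b • p) * (e * f * f * det2 (a • b • p) (b • p)) *
        (f * det2 p (b • p)) = (e * e) * (f * f) * (f * f) *
        (det2 p (a • b • p) * det2 (a • b • p) (b • p) * det2 p (b • p)) := by ring
    rw [this, he, hf, one_mul, one_mul, one_mul]
    exact hc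

private theorem pw_sin (d c x : ℝ) (h0 : 0 < d) (h1 : d ≤ 1) (hx1 : d ≤ x)
    (hx2 : x ≤ Real.pi - d) (hc : c ≤ d - d ^ 3 / 6) : c ≤ Real.sin x := by
  have hd := Real.sin_gt_sub_cube h0
  have hs : Real.sin d ≤ Real.sin x := by
    rcases le_total x (Real.pi / 2) with h | h
    · exact Real.sin_le_sin_of_le_of_le_pi_div_two (by linarith [Real.pi_pos]) h hx1
    · rw [← Real.sin_pi_sub x]
      exact Real.sin_le_sin_of_le_of_le_pi_div_two (by linarith [Real.pi_pos]) (by linarith)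
        (by linarith)
  linarith

private theorem pw_norm (hgm : S_gm) (hang : S_ang) (M : ℕ) (b : Ty) (g : SL2)
    (hg : g ∈ winS M b 0) (A B : ℝ) (hA : A = aα b ∨ A = aα b + Real.pi)
    (hB : B = aβ b.2 ∨ B = aβ b.2 + Real.pi) :
    ∃ s t x e : ℝ, 9 ≤ x ∧ |s - A| ≤ 158 / 1000 ∧ |t - B| ≤ 1765 / 10000 ∧ e * e = 1 ∧
      g.1 = e • (gm s t x).1 := by
  obtain ⟨-, -, -, -, hs, ht, -⟩ := hgm
  obtain ⟨s, t, x, hx, h1, h2, h3⟩ := hang M b g hg
  have h3' : ∃ e : ℝ, e * e = 1 ∧ g.1 = e • (gm s t x).1 := by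
    rcases h3 with h | h
    · exact ⟨1, by norm_num, by rw [h, one_smul]⟩
    · exact ⟨-1, by norm_num, by rw [h, neg_one_smul]⟩
  obtain ⟨e, he, hge⟩ := h3'
  have h4 : ∃ s' e' : ℝ, |s' - A| ≤ 158 / 1000 ∧ e' * e' = 1 ∧
      g.1 = e' • (gm s' t x).1 := by
    rcases hA with h | h
    · exact ⟨s, e, by rw [h]; exact h1, he, hge⟩
    · refine ⟨s + Real.pi, -e, ?_, by rw [neg_mul_neg, he], ?_⟩
      · rw [h]
        have : s + Real.pi - (aα b + Real.pi) = s - aα b := by ring
        rw [this]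
        exact h1
      · rw [hs, hge, smul_neg, neg_smul, neg_neg]
  obtain ⟨s', e', h5, he', hge'⟩ := h4
  rcases hB with h | h
  · exact ⟨s', t, x, e', hx, h5, by rw [h]; exact h2, he', hge'⟩
  · refine ⟨s', t + Real.pi, x, -e', hx, h5, ?_, by rw [neg_mul_neg, he'], ?_⟩
    · rw [h]
      have : t + Real.pi - (aβ b.2 + Real.pi) = t - aβ b.2 := by ring
      rw [this]
      exact h2
    · rw [ht, hge', smul_neg, neg_smul, neg_neg]

/-- The pants condition for the windows. -/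
theorem tPW : S_gm → S_ang → S_PHang → S_PW := by
  intro hgm hang hPH M a b c hPT g hg g' hg' g'' hg''
  obtain ⟨⟨p1, p2⟩, ⟨q1, q2⟩, ⟨f1, f2⟩, ⟨f3, f4⟩, ⟨f5, f6⟩⟩ := hPT
  have hpi := Real.pi_gt_d4
  have hpi' := Real.pi_lt_d4
  -- the first indices
  obtain ⟨d1, hd1⟩ : ∃ d, d = (b.1 - a.1).val := ⟨_, rfl⟩
  obtain ⟨d2, hd2⟩ : ∃ d, d = (c.1 - a.1).val := ⟨_, rfl⟩
  obtain ⟨e1, he1⟩ : ∃ d, d = (b.2 - c.2).val := ⟨_, rfl⟩
  obtain ⟨e2, he2⟩ : ∃ d, d = (a.2 - c.2).val := ⟨_, rfl⟩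
  rw [← hd1] at p1 p2
  rw [← hd2] at p2
  rw [← he1] at q1 q2
  rw [← he2] at q2
  have b4 : d2 ≤ 4 := by have := (c.1 - a.1).isLt; omega
  have e1b : 2 ≤ e1 := by rw [he1]; exact f4
  have A1 : (a.1.val + d1 = b.1.val) ∨ (a.1.val + d1 = b.1.val + 5) := by
    have h := Fin.val_sub b.1 a.1
    have ha := a.1.isLt
    have hb := b.1.isLt
    omega
  have A2 : (a.1.val + d2 = c.1.val) ∨ (a.1.val + d2 = c.1.val + 5) := by
    have h := Fin.val_sub c.1 a.1
    have ha := a.1.isLt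
    have hb := c.1.isLt
    omega
  have B1 : (c.2.val + e1 = b.2.val) ∨ (c.2.val + e1 = b.2.val + 16) := by
    have h := Fin.val_sub b.2 c.2
    have ha := c.2.isLt
    have hb := b.2.isLt
    omega
  have B2 : (c.2.val + e2 = a.2.val) ∨ (c.2.val + e2 = a.2.val + 16) := by
    have h := Fin.val_sub a.2 c.2
    have ha := c.2.isLt
    have hb := a.2.isLt
    omega
  have e2b : e2 ≤ 14 := by
    have h := Fin.val_sub a.2 c.2
    have h' := Fin.val_sub c.2 a.2
    have ha := c.2.isLt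
    have hb := a.2.isLt
    omega
  have e3b : e1 + 2 ≤ e2 := by
    have h := Fin.val_sub a.2 b.2
    have h' := Fin.val_sub b.2 c.2
    have ha := c.2.isLt
    have hb := a.2.isLt
    have hc := b.2.isLt
    omega
  -- the normalized elements
  obtain ⟨su, tu, xu, eu, hxu, hsu, htu, heu, hgu⟩ := pw_norm hgm hang M a g hg (aα a)
    (Real.pi * ((c.2.val : ℝ) + e2) / 16) (Or.inl rfl) (by
      unfold aβ
      rcases B2 with h | h
      · left; rw [← h]; push_cast; ring
      · right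
        have h' : ((c.2.val : ℝ) + e2) = (a.2.val : ℝ) + 16 := by exact_mod_cast h
        rw [h']; ring)
  obtain ⟨sv, tv, xv, ev, hxv, hsv, htv, hev, hgv⟩ := pw_norm hgm hang M b g' hg'
    (Real.pi * ((a.1.val : ℝ) + d1) / 5) (Real.pi * ((c.2.val : ℝ) + e1) / 16) (by
      unfold aα
      rcases A1 with h | h
      · left; rw [← h]; push_cast; ring
      · right
        have h' : ((a.1.val : ℝ) + d1) = (b.1.val : ℝ) + 5 := by exact_mod_cast h
        rw [h']; ring) (by
      unfold aβ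
      rcases B1 with h | h
      · left; rw [← h]; push_cast; ring
      · right
        have h' : ((c.2.val : ℝ) + e1) = (b.2.val : ℝ) + 16 := by exact_mod_cast h
        rw [h']; ring)
  obtain ⟨sw, tw, xw, ew, hxw, hsw, htw, hew, hgw⟩ := pw_norm hgm hang M c g'' hg''
    (Real.pi * ((a.1.val : ℝ) + d2) / 5) (aβ c.2) (by
      unfold aα
      rcases A2 with h | h
      · left; rw [← h]; push_cast; ring
      · right
        have h' : ((a.1.val : ℝ) + d2) = (c.1.val : ℝ) + 5 := by exact_mod_cast h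
        rw [h']; ring) (Or.inl rfl)
  have r1 : (1 : ℝ) ≤ d1 := by exact_mod_cast p1
  have r2 : (d1 : ℝ) + 1 ≤ d2 := by exact_mod_cast p2
  have r3 : (d2 : ℝ) ≤ 4 := by exact_mod_cast b4
  have r4 : (2 : ℝ) ≤ e1 := by exact_mod_cast e1b
  have r5 : (e1 : ℝ) + 2 ≤ e2 := by exact_mod_cast e3b
  have r6 : (e2 : ℝ) ≤ 14 := by exact_mod_cast e2b
  have v1 : Real.pi * 1 ≤ Real.pi * d1 := mul_le_mul_of_nonneg_left r1 (by linarith)
  have v2 : Real.pi * (d1 + 1) ≤ Real.pi * d2 := mul_le_mul_of_nonneg_left r2 (by linarith)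
  have v3 : Real.pi * d2 ≤ Real.pi * 4 := mul_le_mul_of_nonneg_left r3 (by linarith)
  have v4 : Real.pi * 2 ≤ Real.pi * e1 := mul_le_mul_of_nonneg_left r4 (by linarith)
  have v5 : Real.pi * (e1 + 2) ≤ Real.pi * e2 := mul_le_mul_of_nonneg_left r5 (by linarith)
  have v6 : Real.pi * e2 ≤ Real.pi * 14 := mul_le_mul_of_nonneg_left r6 (by linarith)
  unfold aα at hsu
  unfold aβ at htw
  rw [abs_le] at hsu hsv hsw htu htv htw
  obtain ⟨s1, s2⟩ := hsu
  obtain ⟨s3, s4⟩ := hsv
  obtain ⟨s5, s6⟩ := hsw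
  obtain ⟨t1, t2⟩ := htu
  obtain ⟨t3, t4⟩ := htv
  obtain ⟨t5, t6⟩ := htw
  have ww := hPH (Real.pi * (a.1.val : ℝ) / 5 - Real.pi / 10) su sv sw tu tv tw xu xv xw hxu hxv hxw
    (pw_sin (156 / 1000) _ _ (by norm_num) (by norm_num) (by linarith) (by linarith) (by norm_num))
    (pw_sin (156 / 1000) _ _ (by norm_num) (by norm_num) (by linarith) (by linarith) (by norm_num))
    (pw_sin (156 / 1000) _ _ (by norm_num) (by norm_num) (by linarith) (by linarith) (by norm_num))
    (pw_sin (312 / 1000) _ _ (by norm_num) (by norm_num) (by linarith) (by linarith) (by norm_num))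
    (pw_sin (312 / 1000) _ _ (by norm_num) (by norm_num) (by linarith) (by linarith) (by norm_num))
    (pw_sin (312 / 1000) _ _ (by norm_num) (by norm_num) (by linarith) (by linarith) (by norm_num))
    (pw_sin (396 / 10000) _ _ (by norm_num) (by norm_num) (by linarith) (by linarith) (by norm_num))
    (pw_sin (396 / 10000) _ _ (by norm_num) (by norm_num) (by linarith) (by linarith) (by norm_num))
    (pw_sin (396 / 10000) _ _ (by norm_num) (by norm_num) (by linarith) (by linarith) (by norm_num))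
  refine ⟨_, pw_sg _ _ _ _ _ (eu * ev) (ev * ew) ?_ ?_ ?_ ?_ ww⟩
  · calc (eu * ev) * (eu * ev) = (eu * eu) * (ev * ev) := by ring
      _ = 1 := by rw [heu, hev, one_mul]
  · calc (ev * ew) * (ev * ew) = (ev * ev) * (ew * ew) := by ring
      _ = 1 := by rw [hev, hew, one_mul]
  · exact pw_mul _ _ _ _ _ _ hgu (pw_inv _ _ _ hgv)
  · exact pw_mul _ _ _ _ _ _ hgv (pw_inv _ _ _ hgw)

end Pool.Agent.MPEF
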