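import Pool.Agent.Lib.MP_ef3f0f_gt.W.Spec

set_option autoImplicit false

/-! # MP_ef3f0f_gt: singular value decomposition in `SL₂(ℝ)` -/

namespace Pool.Agent.MPEF

open scoped Pointwise

private theorem SVD_polar (x y : ℝ) : ∃ r θ : ℝ, 0 ≤ r ∧ r ^ 2 = x ^ 2 + y ^ 2 ∧
    x = r * Real.cos θ ∧ y = r * Real.sin θ := by
  refine ⟨‖(⟨x, y⟩ : ℂ)‖, Complex.arg ⟨x, y⟩, norm_nonneg _, ?_, ?_, ?_⟩
  · rw [Complex.sq_norm, Complex.normSq_apply]
    ring
  · exact (Complex.norm_mul_cos_arg ⟨x, y⟩).symm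
  · exact (Complex.norm_mul_sin_arg ⟨x, y⟩).symm

private theorem SVD_val (s t x : ℝ) : (gm s t x).1 =
    !![Real.exp x * Real.cos s * Real.cos t + Real.exp (-x) * Real.sin s * Real.sin t,
      Real.exp x * Real.cos s * Real.sin t - Real.exp (-x) * Real.sin s * Real.cos t;
      Real.exp x * Real.sin s * Real.cos t - Real.exp (-x) * Real.cos s * Real.sin t,
      Real.exp x * Real.sin s * Real.sin t + Real.exp (-x) * Real.cos s * Real.cos t] := by
  have h : (gm s t x).1 = (rot s).1 * (dgx x).1 * (rot (-t)).1 := rfl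
  rw [h]
  unfold rot dgx
  ext i j
  fin_cases i <;> fin_cases j <;> simp [Matrix.mul_apply, Fin.sum_univ_two] <;> ring

theorem tSVD : S_SVD := by
  intro g
  have hdet : g.1 0 0 * g.1 1 1 - g.1 0 1 * g.1 1 0 = 1 := by
    rw [← Matrix.det_fin_two]
    exact g.2
  obtain ⟨R, θ, hR, hR2, h1, h2⟩ := SVD_polar (g.1 0 0 + g.1 1 1) (g.1 1 0 - g.1 0 1)
  obtain ⟨S, φ, hS, hS2, h3, h4⟩ := SVD_polar (g.1 0 0 - g.1 1 1) (g.1 0 1 + g.1 1 0)
  have h5 : R ^ 2 = S ^ 2 + 4 := by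
    rw [hR2, hS2]
    linear_combination 4 * hdet
  have hR1 : 2 ≤ R := by nlinarith
  have hE : 0 < (R + S) / 2 := by linarith
  have hx : Real.exp (Real.log ((R + S) / 2)) = (R + S) / 2 := Real.exp_log hE
  have hx' : Real.exp (-Real.log ((R + S) / 2)) = (R - S) / 2 := by
    rw [Real.exp_neg, hx]
    exact inv_eq_of_mul_eq_one_right (by linear_combination (1 / 4) * h5)
  refine ⟨(θ + φ) / 2, (φ - θ) / 2, Real.log ((R + S) / 2), Real.log_nonneg (by linarith), ?_⟩
  have c1 : Real.cos θ = Real.cos ((θ + φ) / 2) * Real.cos ((φ - θ) / 2) +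
      Real.sin ((θ + φ) / 2) * Real.sin ((φ - θ) / 2) := by
    rw [← Real.cos_sub]
    congr 1
    ring
  have c2 : Real.cos φ = Real.cos ((θ + φ) / 2) * Real.cos ((φ - θ) / 2) -
      Real.sin ((θ + φ) / 2) * Real.sin ((φ - θ) / 2) := by
    rw [← Real.cos_add]
    congr 1
    ring
  have c3 : Real.sin θ = Real.sin ((θ + φ) / 2) * Real.cos ((φ - θ) / 2) -
      Real.cos ((θ + φ) / 2) * Real.sin ((φ - θ) / 2) := by
    rw [← Real.sin_sub]
    congr 1
    ring
  have c4 : Real.sin φ = Real.sin ((θ + φ) / 2) * Real.cos ((φ - θ) / 2) +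
      Real.cos ((θ + φ) / 2) * Real.sin ((φ - θ) / 2) := by
    rw [← Real.sin_add]
    congr 1
    ring
  rw [c1] at h1
  rw [c3] at h2
  rw [c2] at h3
  rw [c4] at h4
  apply Subtype.ext
  rw [SVD_val, hx, hx']
  ext i j
  fin_cases i <;> fin_cases j
  · change g.1 0 0 = _ * Real.cos _ * Real.cos _ + _ * Real.sin _ * Real.sin _
    linear_combination (1 / 2) * h1 + (1 / 2) * h3
  · change g.1 0 1 = _ * Real.cos _ * Real.sin _ - _ * Real.sin _ * Real.cos _
    linear_combination (1 / 2) * h4 - (1 / 2) * h2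
  · change g.1 1 0 = _ * Real.sin _ * Real.cos _ - _ * Real.cos _ * Real.sin _
    linear_combination (1 / 2) * h4 + (1 / 2) * h2
  · change g.1 1 1 = _ * Real.sin _ * Real.sin _ + _ * Real.cos _ * Real.cos _
    linear_combination (1 / 2) * h1 - (1 / 2) * h3

end Pool.Agent.MPEF
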