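import Pool.Agent.Lib.MP_ef3f0f_gt.W.Defs

set_option autoImplicit false

/-!
# MP_ef3f0f_gt, windows in `SL₂(ℝ)`: the statements

Modules `W/X.lean`: `theorem tX : S_Y → ... → S_X`, namespace `Pool.Agent.MPEF`.
-/

namespace Pool.Agent.MPEF

open scoped Pointwise

/-- Formulas. Proof: explicit computation. For the trace: `gm s t x (gm s' t' x')⁻¹ = rot s dgx x rot (t'-t) dgx (-x') rot (-s')`, and
`tr (rot a dgx x rot b dgx (-x')) = cos a cos b (e^(x-x') + e^(x'-x)) - sin a sin b (e^(x+x') + e^(-x-x'))`, `a = s - s'`, `b = t' - t`.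
`ξ_θ^⊥ᵀ gm = e^x sin(s-θ) (row dir t) + e^(-x) cos(s-θ) (row dir (t+π/2))`, up to signs; the same for the columns. -/
def S_gm : Prop :=
  (∀ s t x, nrm (gm s t x).1 ^ 2 = Real.exp (2 * x) + Real.exp (-(2 * x))) ∧
  (∀ s t x θ, rowN θ (gm s t x).1 ^ 2 =
    Real.exp (2 * x) * Real.sin (s - θ) ^ 2 + Real.exp (-(2 * x)) * Real.cos (s - θ) ^ 2) ∧
  (∀ s t x θ, colN θ (gm s t x).1 ^ 2 =
    Real.exp (2 * x) * Real.sin (t - θ) ^ 2 + Real.exp (-(2 * x)) * Real.cos (t - θ) ^ 2) ∧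
  (∀ s t x s' t' x', tr2 (gm s t x * (gm s' t' x')⁻¹) =
    2 * Real.cosh (x - x') * (Real.cos (s - s') * Real.cos (t - t')) +
    2 * Real.cosh (x + x') * (Real.sin (s - s') * Real.sin (t - t'))) ∧
  (∀ s t x, (gm (s + Real.pi) t x).1 = -(gm s t x).1) ∧
  (∀ s t x, (gm s (t + Real.pi) x).1 = -(gm s t x).1) ∧
  (∀ s θ, rot s • dir θ = dir (θ + s)) ∧ (∀ s, (rot s)⁻¹ = rot (-s)) ∧
  (∀ x, (dgx x)⁻¹ = dgx (-x)) ∧ (∀ x (v : V2), dgx x • v = ![Real.exp x * v 0, Real.exp (-x) * v 1]) ∧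
  (∀ θ θ', det2 (dir θ) (dir θ') = Real.sin (θ' - θ))

/-- Singular value decomposition. Proof. For `g = (a b; c d)` let `z = (a+d) + i (c-b)`, `w = (a-d) + i (b+c)`; `|z|² - |w|² = 4 det g = 4`, so `|z| > |w|`, and
`(|z|+|w|)(|z|-|w|) = 4`. Put `e^x = (|z|+|w|)/2 ≥ 1`, `e^(-x) = (|z|-|w|)/2`, `s - t = arg z`, `s + t = arg w`: indeed `gm s t x` has
`z = (e^x + e^(-x)) e^(i(s-t))`, `w = (e^x - e^(-x)) e^(i(s+t))`, and `z, w` determine the matrix. -/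
def S_SVD : Prop := ∀ g : SL2, ∃ s t x : ℝ, 0 ≤ x ∧ g = gm s t x

/-- Norm inequalities. Proof. `rowN θ A` is the norm of the row vector `ξ^⊥ᵀ A` and `colN` the norm of `A η^⊥`, with unit vectors `ξ^⊥`, `η^⊥`; Cauchy - Schwarz.
`rowN θ (p A q) ≤ ‖ξ^⊥ᵀ (p-1)‖ nrm (A q) + ‖ξ^⊥ᵀ A q‖` and `‖v q‖ ≤ ‖v‖ (1 + nrm (q - 1))`, `nrm (A q) ≤ nrm A (1 + nrm (q-1))`. `nrm A = nrm (p⁻¹ (p A q) q⁻¹) ≤ (1+t)² nrm (p A q)` as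
`p⁻¹, q⁻¹ ∈ Bs t`. -/
def S_rc : Prop :=
  (∀ θ, Continuous (rowN θ)) ∧ (∀ θ, Continuous (colN θ)) ∧
  (∀ (θ : ℝ) (A : M2), rowN θ A ≤ nrm A ∧ colN θ A ≤ nrm A ∧ rowN θ (-A) = rowN θ A ∧
    colN θ (-A) = colN θ A) ∧
  (∀ (t θ : ℝ) (p g q : SL2), 0 ≤ t → p ∈ Bs t → q ∈ Bs t →
    rowN θ (p * g * q).1 ≤ (1 + t) * (rowN θ g.1 + t * nrm g.1) ∧
    colN θ (p * g * q).1 ≤ (1 + t) * (colN θ g.1 + t * nrm g.1) ∧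
    nrm g.1 ≤ (1 + t) ^ 2 * nrm (p * g * q).1 ∧ nrm (p * g * q).1 ≤ (1 + t) ^ 2 * nrm g.1) ∧
  (∀ p g : SL2, nrm (p * g).1 ≤ nrm p.1 * nrm g.1 ∧ nrm g.1 ≤ nrm p.1 * nrm (p * g).1 ∧
    nrm p.1 ≤ nrm g.1 * nrm (p * g).1) ∧
  (∀ g g' : SL2, |tr2 (g * g'⁻¹)| ≤ nrm g.1 * nrm g'.1)

/-- The small balls. Proof. `1 + rB (k+1) = (1 + rB k)²`; `S_Bs`, `S_SLgen`. `rB 9 = (1 + 10⁻⁷)^512 - 1 ≤ 1/10⁴` (`(1+u)^n ≤ exp (n u)` or Bernoulli type bounds), `rB 7 ≤ 2/10⁵`. -/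
def S_balls : Prop :=
  (∀ k, 0 < rB k) ∧ (∀ k, IsOpen (geoSL.B k)) ∧ (∀ k, (1 : SL2) ∈ geoSL.B k) ∧
  (∀ k, ∀ g ∈ geoSL.B k, g⁻¹ ∈ geoSL.B k) ∧ (∀ k, geoSL.B k * geoSL.B k ⊆ geoSL.B (k + 1)) ∧
  (∀ k, IsCompact (closure (geoSL.B k))) ∧ Subgroup.closure (geoSL.B 0) = ⊤ ∧
  rB 9 ≤ 1 / 10 ^ 4 ∧ rB 7 ≤ 2 / 10 ^ 5

/-- The windows: topology and perturbation. Proof. Open: strict inequalities of continuous functions; closure: contained in `{nrm g ≤ M}`, compact (`S_Bs`). Perturbation: `t = rB 9 ≤ 10⁻⁴`. Let `g` be in level `l + 1`. If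
`l + 1 ≥ 156` the window is empty (`rowN ≥ 0`). Otherwise with `c = (156 - (l+1))/1000` (or `175`): `rowN (pgq) ≤ (1+t)(c + t) nrm g ≤ (1+t)³ (c+t) nrm (pgq)`, and `(1+t)³ (c + t) ≤ c + 1/1000` for `c ≤ 0.175`.
`nrm (pgq) ≥ (1+t)⁻² nrm g > (1+t)⁻² 10⁴ (1 + (l+1)/1000) ≥ 10⁴ (1 + l/1000)` as `(1+t)² (1 + l/1000) ≤ 1 + (l+1)/1000` for `l ≤ 155`. The upper bound in the same way. -/
def S_wtop : Prop :=
  (∀ M a l, IsOpen (winS M a l)) ∧ (∀ M a l, IsCompact (closure (winS M a l))) ∧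
  (∀ M a l, geoSL.B 9 * winS M a (l + 1) * geoSL.B 9 ⊆ winS M a l) ∧
  (∀ M a, IsOpen (geoSL.Mid M a)) ∧
  (∀ M a l g, g ∈ winS M a l → ∀ g' : SL2, g'.1 = -g.1 → g' ∈ winS M a l)

/-- Angles. Proof. `S_SVD`: `g = gm s t x`, `e^(2x) + e^(-2x) = (nrm g)² > 10⁸`, so `x ≥ 9` (`e^18 < 6.6 · 10⁷`). `rowN < 0.156 nrm`: `sin²(s - α) ≤ 0.156² (1 + e^(-4x))`, so `|sin(s - α)| ≤ 0.1561 < sin 0.158`; so
`s - α` is within `0.158` of a multiple of `π`; shift `s` by this multiple (`S_gm`: sign). The same for `t`: `0.1751 < sin 0.1765`. -/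
def S_ang : Prop :=
  ∀ M a, ∀ g ∈ winS M a 0, ∃ s t x : ℝ, 9 ≤ x ∧ |s - aα a| ≤ 158 / 1000 ∧
    |t - aβ a.2| ≤ 1765 / 10000 ∧ (g.1 = (gm s t x).1 ∨ g.1 = -(gm s t x).1)

/-- Traces for compatible types. Proof. `S_ang` for `g`, `g'`: `s - s'` differs from `π k / 5`, `1 ≤ |k| ≤ 4`, by at most `0.316`, so `|sin(s - s')| ≥ 0.3` (`π/5 - 0.316 > 0.312`, `sin 0.312 > 0.3`), `t - t'` from `π k / 16`,
`2 ≤ |k| ≤ 14`, by at most `0.353`: `|sin(t - t')| ≥ 0.039`. `|tr| ≥ 2 cosh(x+x') 0.0117 - 2 cosh(x-x')`, and `cosh(x - x') ≤ e^(-18) e^(x+x')`; `nrm g nrm g' ≤ (1+10⁻⁷) e^(x+x')`. -/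
def S_trlow : Prop :=
  ∀ M a b, Cp a b → ∀ g ∈ winS M a 0, ∀ g' ∈ winS M b 0,
    nrm g.1 * nrm g'.1 / 100 ≤ |tr2 (g * g'⁻¹)|

/-- Axioms `hy`, `ti`, and `big`, first part. Proof. `hy`: `S_trlow`, `10⁸/100 > 2`. Nonempty: `g = gm (aα a) (aβ a.2) x` has `rowN = colN = e^(-x)` and `nrm² = e^(2x) + e^(-2x)` arbitrary; take
`nrm` between `1.01 · 10⁴` and `M / 1.01`, resp. near `√(10⁴ M)`. Closure: for `g ∈ winS M a 0`, `g' ∈ Mid M b`: `S_trlow` gives `|tr| ≥ 10⁴ (√(10⁴M)/2)/100 = 5000 √M ≥ 2 · 10⁸`, `|tr| ≤ nrm g nrm g' ≤ M · 2 √(10⁴ M) ≤ M²/2` for large `M`; `Tr M` is closed.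
Conjugation: for `T = |tr g| ∈ [2·10⁸, M²/2]` let `g₀ = gm 0 (π/2) x` (type `(0,8)`), `g₁ = gm (2π/5) 0 x` (type `(2,0)`): `tr (g₀ g₁⁻¹) = -2 cosh(2x) sin(2π/5)` (`S_gm`; `cos(π/2) = 0`, `sin(-2π/5) sin(π/2)`), choose `x` with
`2 cosh(2x) sin(2π/5) = T`, so `nrm² = 2 cosh 2x = T / sin(2π/5) ∈ [2·10⁸, 0.53 M²]` (`sin(2π/5) ≥ 0.95`): `g₀`, `g₁` are in level `6`. Replace `g₀` by `-g₀` if `tr g > 0`. Two elements of `SL₂(ℝ)` with the same trace, `|tr| > 2`, are conjugate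
(`S_diag`: `l + l⁻¹ = tr`, `|l| > 1` determines `l`). -/
def S_big : Prop :=
  (∀ M a b, Cp a b → winS M a 0 * (winS M b 0)⁻¹ ⊆ geoSL.Hyp) ∧
  (∀ M, ∀ g ∈ geoSL.Tr M, g⁻¹ ∈ geoSL.Tr M) ∧
  ∃ M₁ : ℕ, ∀ M, M₁ ≤ M →
    (∀ a l, l ≤ 10 → (winS M a l).Nonempty) ∧ (∀ a, (geoSL.Mid M a).Nonempty) ∧
    (∀ a b, Cp a b → closure (winS M a 0 * (geoSL.Mid M b)⁻¹) ⊆ geoSL.Tr M)

/-- Axiom `big`, conjugation: see the docstring of `S_big`. -/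
def S_cj : Prop :=
  ∃ M₁ : ℕ, ∀ M, M₁ ≤ M → ∀ g ∈ geoSL.Tr M, ∃ g₀ ∈ winS M (0, 8) 6, ∃ g₁ ∈ winS M (2, 0) 6,
    ∃ q : SL2, q⁻¹ * g * q = g₀ * g₁⁻¹

/-- Covering of the directions. Proof. `v = ρ dir θ`, `θ ∈ [0, π)` after a change of sign; `j` = nearest integer to `16 θ / π` (mod 16): `|-sin(aβ j) v₀ + cos(aβ j) v₁| = ρ |sin(θ - aβ j)| ≤ ρ sin(π/32)`, `sin(π/32) ≤ π/32 ≤ 0.0982`.
Second part: `v = ρ dir θ`, `v' = ρ' dir θ'`: `|sin(θ - aβ j)|, |sin(θ' - aβ j')| ≤ 0.0982`, `|sin(θ' - θ)| = |det2 v v'| / (ρρ') ≤ 3/10⁵`; so `|sin(aβ j - aβ j')| ≤ 0.1965 < sin(π/8) ≤ |sin(π k/16)|` for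
`2 ≤ |k| ≤ 14`; so `j - j' ∈ {0, ±1}` mod 16. -/
def S_cover : Prop :=
  (∀ v : V2, ∃ j : Fin 16, |-Real.sin (aβ j) * v 0 + Real.cos (aβ j) * v 1| ≤
    982 / 10000 * Real.sqrt (v 0 ^ 2 + v 1 ^ 2)) ∧
  (∀ (v v' : V2) (j j' : Fin 16), v ≠ 0 → v' ≠ 0 →
    |-Real.sin (aβ j) * v 0 + Real.cos (aβ j) * v 1| ≤ 982 / 10000 * Real.sqrt (v 0 ^ 2 + v 1 ^ 2) →
    |-Real.sin (aβ j') * v' 0 + Real.cos (aβ j') * v' 1| ≤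
      982 / 10000 * Real.sqrt (v' 0 ^ 2 + v' 1 ^ 2) →
    |det2 v v'| ≤ 3 / 10 ^ 5 * (Real.sqrt (v 0 ^ 2 + v 1 ^ 2) * Real.sqrt (v' 0 ^ 2 + v' 1 ^ 2)) →
    j' = j ∨ j' = j + 1 ∨ j = j' + 1)

/-- Axiom `wd`. Proof. `gs = gm 0 (π/4) x` with `nrm gs = √(10⁴ M)` about (`x = ½ log (10⁴ M)`). For `w ∈ L`, `P_i = (w.take i).prod`, `v_i = P_iᵀ dir(π/4)` (nonzero). `j_i = 4` if `P_i = 1`, otherwise an index from `S_cover` for `v_i` (for `P_i = 1`: `aβ 4 = π/4`, the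
expression is `0`). Neighbours: `v_{i+1} = g_{i+1}ᵀ v_i`, `nrm (g_{i+1} - 1) < rB 7 ≤ 2/10⁵`, so `|det2 v_i v_{i+1}| ≤ 2/10⁵ |v_i|²` and `|v_{i+1}| ≥ (1 - 2/10⁵)|v_i|`. `j` at the end: `P_L = w.prod = 1`. Membership of `gs P` in level 7, for `P` in the finite set of
all prefixes, `K = max nrm P`: `gs = e^x dir(0) dir(π/4)ᵀ + e^(-x) dir(π/2) dir(3π/4)ᵀ`. `rowN 0 (gs P) ≤ e^(-x) K`, `nrm (gs P) ≥ e^x / K` (`S_rc`), so `rowN < 0.149 nrm` for `e^(2x) > 7 K²`. `colN (aβ j) (gs P) ≤ e^x |η_j^⊥ · v| + e^(-x) K ≤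
0.0982 e^x |v| + e^(-x) K`, and `nrm (gs P) ≥ e^x |v|` (first row), `|v| ≥ 1/K`: `< 0.168 nrm` for large `x`. `10⁴ · 1.007 < e^x / K`, `(e^x + 1) K · 1.007 < M` for large `M` (`e^x = 100 √M`). -/
def S_wd : Prop :=
  ∀ L : Finset (List SL2), (∀ w ∈ L, w.prod = 1 ∧ ∀ g ∈ w, g ∈ geoSL.B 7) →
    ∃ M₀ : ℕ, ∀ M, M₀ ≤ M → ∃ gs : SL2, ∀ w ∈ L, ∃ j : ℕ → Fin 16,
      j 0 = 4 ∧ j w.length = 4 ∧
      (∀ i, i < w.length → j (i + 1) = j i ∨ j (i + 1) = j i + 1 ∨ j i = j (i + 1) + 1) ∧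
      ∀ i, i ≤ w.length → gs * (w.take i).prod ∈ winS M (0, j i) 7

/-- The pants condition in angles. Proof. Let `gu, gv, gw` be the three `gm`, `p = dir θ`, `a = gu gv⁻¹`, `b = gv gw⁻¹`, `a b = gu gw⁻¹`. By `S_gm` `tr a = 2 cosh(xu-xv) cos cos + 2 cosh(xu+xv) sin(su-sv) sin(tu-tv)` with `sin(su-sv) ≤ -0.3`, `sin(tu-tv) ≥ 0.039`, so `tr a ≤
e^(xu+xv) (2 e^(-18) - 0.0117) < -2`; similarly `tr b`, `tr (a b)`. For `g = gm s t x`, `g' = gm s' t' x'`: with `A = e^(-x') cos(θ-s')`, `B = e^(x') sin(θ-s')`, `β = t'-t`: `g g'⁻¹ p = rot s (e^x (cos β A - sin β B), e^(-x) (sin β A + cos β B))`, so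
`det2 p (g g'⁻¹ p) = cos(θ-s) e^(-x) (sin β A + cos β B) - sin(θ-s) e^x (cos β A - sin β B) = e^(x+x') sin(θ-s) sin(θ-s') sin(t'-t) + O`, `|O| ≤ 3 e^(-18) e^(x+x')`. For `(gv,gw)` and `(gu,gw)`: `sin(θ-s), sin(θ-s') ≤ -0.15`, `sin(tw - tv), sin(tw - tu) ≤ -0.039`, so
`det2 p (b p) < 0`, `det2 p (a b p) < 0`. `det2 (b p) (a b p) = det2 (gv y) (gu y)`, `y = gw⁻¹ p = Y dir(tw + π/2) + e^(-xw) cos(θ-sw) dir(tw)`, `Y = e^(xw) sin(θ-sw)`; `gv y = rot sv (e^(xv) y_∥, e^(-xv) y_⊥)` with `y_∥ = -Y sin(tw-tv) + O(e^(-xw))`, the same for `gu`; so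
`det2 = Y² e^(xu+xv) sin(tw-tv) sin(tw-tu) sin(su-sv) (1 + O(10⁻⁴)) < 0`. All conditions of `PH` follow (`cyc p (abp) (bp)`: `det2 p (abp) < 0`, `det2 (abp) (bp) > 0`, `det2 p (bp) < 0`). -/
def S_PHang : Prop :=
  ∀ θ su sv sw tu tv tw xu xv xw : ℝ, 9 ≤ xu → 9 ≤ xv → 9 ≤ xw →
    15 / 100 ≤ Real.sin (su - θ) → 15 / 100 ≤ Real.sin (sv - θ) → 15 / 100 ≤ Real.sin (sw - θ) →
    3 / 10 ≤ Real.sin (sv - su) → 3 / 10 ≤ Real.sin (sw - sv) → 3 / 10 ≤ Real.sin (sw - su) →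
    39 / 1000 ≤ Real.sin (tv - tw) → 39 / 1000 ≤ Real.sin (tu - tv) →
    39 / 1000 ≤ Real.sin (tu - tw) →
    PH (gm su tu xu * (gm sv tv xv)⁻¹) (gm sv tv xv * (gm sw tw xw)⁻¹) (dir θ)

/-- The pants condition for the windows (IV.2). Proof. `S_ang` for the three elements. `PH` does not change if `g`, `g'` or `g''` is replaced by its negative. Let `d₁ = (b.1 - a.1).val`, `d₂ = (c.1 - a.1).val`, `0 < d₁ < d₂ ≤ 4`: shifting `s', s''` by multiples of `π` (`S_gm`, signs) we may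
assume `s'`, `s''` within `0.158` of `aα a + π d₁/5`, `aα a + π d₂/5`. `θ = aα a - π/10`: `s - θ ∈ [0.156, 0.473]`, `s'' - θ ≤ 0.9 π + 0.158`, `π - (s''-θ) ≥ 0.156`: sines `≥ 0.15`; differences of the `s` in `[π/5 - 0.316, 4π/5 + 0.316]`: sines `≥ 0.3`. `e₁ = (b.2 - c.2).val`, `e₂ = (a.2 - c.2).val`, `0 < e₁ < e₂`, far:
`e₁ ≥ 2`, `e₂ - e₁ ≥ 2`, `e₂ ≤ 14`; shift `t', t` to be within `0.1765` of `aβ c.2 + π e₁/16`, `aβ c.2 + π e₂/16`: differences in `[π/8 - 0.353, 14π/16 + 0.353]`, sines `≥ 0.039` (`sin 0.0396`). -/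
def S_PW : Prop := ∀ M, PW geoSL M

/-- **The windows exist.** Proof: `geoSL` and the statements above (`s = rB 0`). -/
def S_WinAll : Prop := S_Win

end Pool.Agent.MPEF
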