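import Pool.Agent.Lib.MP_ef3f0f_gt.W.Spec

set_option autoImplicit false

namespace Pool.Agent.MPEF

open scoped Pointwise

/-- The windows satisfy the axioms. -/
theorem tWinAll : S_balls → S_wtop → S_big → S_cj → S_wd → S_PW → S_WinAll := by
  intro hb hw hg hc hwd hP
  obtain ⟨b1, b2, b3, b4, b5, b6, b7, b8, b9⟩ := hb
  obtain ⟨w1, w2, w3, w4, w5⟩ := hw
  obtain ⟨g1, g2, M₁, g3⟩ := hg
  obtain ⟨M₂, c1⟩ := hc
  refine ⟨geoSL, ?_, rfl, ⟨rB 0, b1 0, subset_rfl⟩, 0, fun M _ => hP M⟩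
  refine ⟨b2, b3, b4, b5, b6, b7, w1, w2, w3, w4, fun M a => Set.inter_subset_left, g2, g1, ?_, hwd⟩
  refine ⟨max M₁ M₂, fun M hM => ?_⟩
  obtain ⟨k1, k2, k3⟩ := g3 M (le_trans (le_max_left _ _) hM)
  exact ⟨k1, k2, k3, c1 M (le_trans (le_max_right _ _) hM)⟩

end Pool.Agent.MPEF
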