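import Pool.Agent.Lib.MP_ef3f0f_gt.W.Spec

set_option autoImplicit false

/-!
# MP_ef3f0f_gt, windows: angles of window elements
-/

namespace Pool.Agent.MPEF

open scoped Pointwise

/-- Reduction of an angle modulo `π`. -/
private theorem ang_red (y δ c : ℝ) (hc : |Real.sin y| ≤ c) (hδ0 : 0 < δ)
    (hδ : c < Real.sin δ) : ∃ n : ℤ, |y - n * Real.pi| ≤ δ := by
  have hπ := Real.pi_pos
  refine ⟨round (y / Real.pi), ?_⟩
  set n := round (y / Real.pi) with hn
  have h1 : |y - n * Real.pi| ≤ Real.pi / 2 := by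
    have h2 := abs_sub_round (y / Real.pi)
    have h3 : y - n * Real.pi = (y / Real.pi - n) * Real.pi := by
      rw [sub_mul, div_mul_cancel₀ _ hπ.ne']
    rw [h3, abs_mul, abs_of_pos hπ]
    nlinarith
  by_contra h4
  push Not at h4
  have h5 : |Real.sin (y - n * Real.pi)| = |Real.sin y| := by
    rw [Real.sin_sub_int_mul_pi, abs_mul]
    have : |((-1 : ℝ) ^ n)| = 1 := by
      rw [abs_zpow]
      simp
    rw [this, one_mul]
  have h6 : |Real.sin (y - n * Real.pi)| = Real.sin |y - n * Real.pi| :=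
    Real.abs_sin_eq_sin_abs_of_abs_le_pi (by linarith)
  have h7 : Real.sin δ ≤ Real.sin |y - n * Real.pi| :=
    Real.sin_le_sin_of_le_of_le_pi_div_two (by linarith) h1 h4.le
  linarith

private theorem ang_gms (h : S_gm) (s t x : ℝ) (n : ℤ) :
    (gm (s + n * Real.pi) t x).1 = (gm s t x).1 ∨
      (gm (s + n * Real.pi) t x).1 = -(gm s t x).1 := by
  have h1 := h.2.2.2.2.1
  induction n using Int.induction_on with
  | zero => left; simp
  | succ n ih =>
    have e1 : s + ((n + 1 : ℤ) : ℝ) * Real.pi = (s + (n : ℤ) * Real.pi) + Real.pi := by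
      push_cast
      ring
    rw [e1, h1]
    rcases ih with ih | ih
    · right; rw [ih]
    · left; rw [ih, neg_neg]
  | pred n ih =>
    have e1 : s + ((-(n : ℤ) : ℤ) : ℝ) * Real.pi =
        (s + ((-(n : ℤ) - 1 : ℤ) : ℝ) * Real.pi) + Real.pi := by
      push_cast
      ring
    rw [e1, h1] at ih
    rcases ih with ih | ih
    · right
      rw [← ih, neg_neg]
    · left
      exact neg_injective ih

private theorem ang_gmt (h : S_gm) (s t x : ℝ) (n : ℤ) :
    (gm s (t + n * Real.pi) x).1 = (gm s t x).1 ∨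
      (gm s (t + n * Real.pi) x).1 = -(gm s t x).1 := by
  have h1 := h.2.2.2.2.2.1
  induction n using Int.induction_on with
  | zero => left; simp
  | succ n ih =>
    have e1 : t + ((n + 1 : ℤ) : ℝ) * Real.pi = (t + (n : ℤ) * Real.pi) + Real.pi := by
      push_cast
      ring
    rw [e1, h1]
    rcases ih with ih | ih
    · right; rw [ih]
    · left; rw [ih, neg_neg]
  | pred n ih =>
    have e1 : t + ((-(n : ℤ) : ℤ) : ℝ) * Real.pi =
        (t + ((-(n : ℤ) - 1 : ℤ) : ℝ) * Real.pi) + Real.pi := by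
      push_cast
      ring
    rw [e1, h1] at ih
    rcases ih with ih | ih
    · right
      rw [← ih, neg_neg]
    · left
      exact neg_injective ih

/-- The bound for the sine. -/
private theorem ang_sin (x y N R c c' : ℝ) (hx : 9 ≤ x)
    (hN : N ^ 2 = Real.exp (2 * x) + Real.exp (-(2 * x)))
    (hR : R ^ 2 = Real.exp (2 * x) * Real.sin y ^ 2 + Real.exp (-(2 * x)) * Real.cos y ^ 2)
    (hR0 : 0 ≤ R) (hRN : R < c * N) (hc' : 0 ≤ c') (hcc : c ^ 2 * (1 + 1 / 10 ^ 7) ≤ c' ^ 2) :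
    |Real.sin y| ≤ c' := by
  have hX : (10 : ℝ) ^ 7 ≤ Real.exp (2 * x) := by
    have h2 : Real.exp 18 = Real.exp 1 ^ 18 := by
      rw [← Real.exp_nat_mul]
      norm_num
    have h3 : (27 / 10 : ℝ) ≤ Real.exp 1 := by
      have := Real.exp_one_gt_d9
      linarith
    have h4 : (27 / 10 : ℝ) ^ 18 ≤ Real.exp 1 ^ 18 := pow_le_pow_left₀ (by norm_num) h3 18
    have h5 : Real.exp 18 ≤ Real.exp (2 * x) := Real.exp_le_exp.2 (by linarith)
    have h6 : (10 : ℝ) ^ 7 ≤ (27 / 10) ^ 18 := by norm_num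
    linarith
  have hY0 : 0 < Real.exp (-(2 * x)) := Real.exp_pos _
  have hY : Real.exp (-(2 * x)) ≤ 1 / 10 ^ 7 * Real.exp (2 * x) := by
    have h1 : Real.exp (-(2 * x)) ≤ 1 := Real.exp_le_one_iff.2 (by linarith)
    nlinarith
  have h1 : R ^ 2 ≤ (c * N) ^ 2 := pow_le_pow_left₀ hR0 hRN.le 2
  rw [mul_pow, hN, hR] at h1
  have h2 : 0 ≤ Real.exp (-(2 * x)) * Real.cos y ^ 2 := by positivity
  have h3 : Real.exp (2 * x) * Real.sin y ^ 2 ≤ Real.exp (2 * x) * c' ^ 2 := by
    have hc0 : 0 ≤ c ^ 2 := sq_nonneg c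
    have h4 : c ^ 2 * (Real.exp (2 * x) + Real.exp (-(2 * x))) ≤
        c ^ 2 * (Real.exp (2 * x) + 1 / 10 ^ 7 * Real.exp (2 * x)) :=
      mul_le_mul_of_nonneg_left (by linarith) hc0
    have h5 : c ^ 2 * (Real.exp (2 * x) + 1 / 10 ^ 7 * Real.exp (2 * x)) =
        Real.exp (2 * x) * (c ^ 2 * (1 + 1 / 10 ^ 7)) := by ring
    have h6 : Real.exp (2 * x) * (c ^ 2 * (1 + 1 / 10 ^ 7)) ≤ Real.exp (2 * x) * c' ^ 2 :=
      mul_le_mul_of_nonneg_left hcc (Real.exp_pos _).le
    linarith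
  have h4 : Real.sin y ^ 2 ≤ c' ^ 2 := le_of_mul_le_mul_left h3 (Real.exp_pos _)
  exact abs_le_of_sq_le_sq h4 hc'

theorem tang (hn : S_nrm) (hg : S_gm) (hSVD : S_SVD) : S_ang := by
  intro M a g hgw
  obtain ⟨h1, h2, h3, h4⟩ := hgw
  obtain ⟨s, t, x, hx0, rfl⟩ := hSVD g
  simp only [Nat.cast_zero, zero_div, sub_zero, add_zero, mul_one] at h1 h2 h3
  have hN := hg.1 s t x
  have hR := hg.2.1 s t x (aα a)
  have hC := hg.2.2.1 s t x (aβ a.2)
  have hN0 : 0 ≤ nrm (gm s t x).1 := hn.1 _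
  have hx : 9 ≤ x := by
    by_contra hx
    push Not at hx
    have e1 : Real.exp (2 * x) ≤ 66000000 := by
      have h2 : Real.exp 18 = Real.exp 1 ^ 18 := by
        rw [← Real.exp_nat_mul]
        norm_num
      have h3 : Real.exp 1 ≤ (27183 / 10000 : ℝ) := by
        have := Real.exp_one_lt_d9
        linarith
      have h4 : Real.exp 1 ^ 18 ≤ (27183 / 10000 : ℝ) ^ 18 :=
        pow_le_pow_left₀ (Real.exp_pos _).le h3 18
      have h5 : Real.exp (2 * x) ≤ Real.exp 18 := Real.exp_le_exp.2 (by linarith)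
      have h6 : (27183 / 10000 : ℝ) ^ 18 ≤ 66000000 := by norm_num
      linarith
    have e2 : Real.exp (-(2 * x)) ≤ 1 := Real.exp_le_one_iff.2 (by linarith)
    nlinarith
  have hs : |Real.sin (s - aα a)| ≤ 1561 / 10000 :=
    ang_sin x (s - aα a) _ _ _ _ hx hN hR (Real.sqrt_nonneg _) h1 (by norm_num) (by norm_num)
  have ht : |Real.sin (t - aβ a.2)| ≤ 1751 / 10000 :=
    ang_sin x (t - aβ a.2) _ _ _ _ hx hN hC (Real.sqrt_nonneg _) h2 (by norm_num) (by norm_num)
  obtain ⟨n, hn1⟩ := ang_red _ (158 / 1000) _ hs (by norm_num) (by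
    have := Real.sin_gt_sub_cube (x := 158 / 1000) (by norm_num)
    norm_num at this ⊢
    linarith)
  obtain ⟨m, hm1⟩ := ang_red _ (1765 / 10000) _ ht (by norm_num) (by
    have := Real.sin_gt_sub_cube (x := 1765 / 10000) (by norm_num)
    norm_num at this ⊢
    linarith)
  refine ⟨s - n * Real.pi, t - m * Real.pi, x, hx, ?_, ?_, ?_⟩
  · have e1 : s - n * Real.pi - aα a = s - aα a - n * Real.pi := by ring
    rw [e1]
    exact hn1
  · have e1 : t - m * Real.pi - aβ a.2 = t - aβ a.2 - m * Real.pi := by ring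
    rw [e1]
    exact hm1
  · have e1 := ang_gms hg (s - n * Real.pi) t x n
    have e2 := ang_gmt hg (s - n * Real.pi) (t - m * Real.pi) x m
    rw [sub_add_cancel] at e1 e2
    rcases e1 with e1 | e1 <;> rcases e2 with e2 | e2
    · left; rw [e1, e2]
    · right; rw [e1, e2]
    · right; rw [e1, e2]
    · left; rw [e1, e2, neg_neg]

end Pool.Agent.MPEF
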