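import Pool.Agent.Lib.MP_ef3f0f_gt.W.Spec

set_option autoImplicit false

/-!
# MP_ef3f0f_gt, W/balls: the small balls
-/

namespace Pool.Agent.MPEF

open scoped Pointwise

private theorem balls_pos (k : ℕ) : 0 < rB k := by
  unfold rB
  have h : (1 : ℝ) < (1 + 1 / 10 ^ 7) ^ (2 ^ k) :=
    one_lt_pow₀ (by norm_num) (by positivity)
  linarith

private theorem balls_succ (k : ℕ) : rB k + rB k + rB k * rB k = rB (k + 1) := by
  unfold rB
  rw [pow_succ 2 k, pow_mul]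
  ring

private theorem balls_up (n : ℕ) (x : ℝ) (hx : (n : ℝ) / 10 ^ 7 = x) (hx1 : x < 1) :
    ((1 : ℝ) + 1 / 10 ^ 7) ^ n ≤ 1 / (1 - x) := by
  have h1 : (1 : ℝ) + 1 / 10 ^ 7 ≤ Real.exp (1 / 10 ^ 7) := by
    have := Real.add_one_le_exp ((1 : ℝ) / 10 ^ 7)
    linarith
  have h2 : ((1 : ℝ) + 1 / 10 ^ 7) ^ n ≤ Real.exp x := by
    refine (pow_le_pow_left₀ (by norm_num) h1 n).trans ?_
    rw [← Real.exp_nat_mul, ← hx]
    apply le_of_eq
    congr 1
    ring
  refine h2.trans ?_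
  have h3 : 1 - x ≤ Real.exp (-x) := by
    have := Real.add_one_le_exp (-x)
    linarith
  rw [le_div_iff₀ (by linarith)]
  calc Real.exp x * (1 - x) ≤ Real.exp x * Real.exp (-x) :=
        mul_le_mul_of_nonneg_left h3 (Real.exp_pos x).le
    _ = 1 := by rw [← Real.exp_add, add_neg_cancel, Real.exp_zero]

theorem tballs : S_nrm → S_Bs → S_SLgen → S_balls := by
  intro _ hB hG
  refine ⟨balls_pos, fun k => hB.1 _, fun k => hB.2.1 _ (balls_pos k),
    fun k g hg => (hB.2.2.1 _ g).2 hg, ?_, ?_, hG _ (balls_pos 0), ?_, ?_⟩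
  · intro k
    have h := hB.2.2.2.1 (rB k) (rB k)
    rw [balls_succ] at h
    exact h
  · intro k
    have h := hB.2.2.2.2.2.2.1 (rB k)
    refine h.closure_of_subset ?_
    intro g hg
    have hg' : nrm (g.1 - 1) < rB k := hg
    exact hg'.le
  · have h := balls_up (2 ^ 9) (512 / 10 ^ 7) (by norm_num) (by norm_num)
    unfold rB
    have h2 : (1 : ℝ) / (1 - 512 / 10 ^ 7) ≤ 1 + 1 / 10 ^ 4 := by
      rw [div_le_iff₀ (by norm_num)]
      norm_num
    exact sub_le_iff_le_add'.2 (h.trans h2)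
  · have h := balls_up (2 ^ 7) (128 / 10 ^ 7) (by norm_num) (by norm_num)
    unfold rB
    have h2 : (1 : ℝ) / (1 - 128 / 10 ^ 7) ≤ 1 + 2 / 10 ^ 5 := by
      rw [div_le_iff₀ (by norm_num)]
      norm_num
    exact sub_le_iff_le_add'.2 (h.trans h2)

end Pool.Agent.MPEF
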