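import Pool.Agent.Lib.MP_ef3f0f_gt.W.Spec

set_option autoImplicit false

/-!
# MP_ef3f0f_gt, windows: hyperbolic products, nonempty windows, traces
-/

namespace Pool.Agent.MPEF

open scoped Pointwise

private theorem big_tr_inv (l : SL2) : tr2 l⁻¹ = tr2 l := by
  unfold tr2
  rw [Matrix.SpecialLinearGroup.coe_inv, Matrix.adjugate_fin_two]
  simp [add_comm]

private theorem big_tr_cont : Continuous tr2 := by
  unfold tr2
  have h : Continuous fun g : SL2 => (g.1 : M2) := continuous_subtype_val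
  exact (h.matrix_elem 0 0).add (h.matrix_elem 1 1)

private theorem big_win (M : ℕ) (a : Ty) (g : SL2) (hnn : 0 ≤ nrm g.1) (h : g ∈ winS M a 2) :
    g ∈ winS M a 0 := by
  obtain ⟨h1, h2, h3, h4⟩ := h
  push_cast at h1 h2 h3 h4
  refine ⟨?_, ?_, ?_, ?_⟩ <;> push_cast <;> nlinarith

/-- The standard element of a window. -/
private theorem big_std (h0 : S_nrm) (h : S_gm) (a : Ty) (y : ℝ) (hy : 1000 ≤ y) :
    ∃ g : SL2, y ≤ nrm g.1 ∧ nrm g.1 ≤ y + 1 ∧ rowN (aα a) g.1 ≤ 1 / 1000 ∧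
      colN (aβ a.2) g.1 ≤ 1 / 1000 := by
  obtain ⟨g1, g2, g3, -⟩ := h
  have hy0 : 0 < y := by linarith
  have e1 : Real.exp (2 * Real.log y) = y ^ 2 := by
    rw [two_mul, Real.exp_add, Real.exp_log hy0]; ring
  have e2 : Real.exp (-(2 * Real.log y)) = (y ^ 2)⁻¹ := by
    rw [Real.exp_neg, e1]
  have hi : (y ^ 2)⁻¹ ≤ (1 / 1000) ^ 2 := by
    rw [inv_eq_one_div, div_pow]
    apply div_le_div₀ <;> nlinarith
  have hi0 : 0 ≤ (y ^ 2)⁻¹ := by positivity
  refine ⟨gm (aα a) (aβ a.2) (Real.log y), ?_, ?_, ?_, ?_⟩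
  · have h1 := g1 (aα a) (aβ a.2) (Real.log y)
    rw [e1, e2] at h1
    have h2 := h0.1 (gm (aα a) (aβ a.2) (Real.log y)).1
    nlinarith
  · have h1 := g1 (aα a) (aβ a.2) (Real.log y)
    rw [e1, e2] at h1
    have h2 := h0.1 (gm (aα a) (aβ a.2) (Real.log y)).1
    nlinarith
  · have h1 := g2 (aα a) (aβ a.2) (Real.log y) (aα a)
    rw [e1, e2, sub_self, Real.sin_zero, Real.cos_zero] at h1
    have h2 : 0 ≤ rowN (aα a) (gm (aα a) (aβ a.2) (Real.log y)).1 := Real.sqrt_nonneg _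
    nlinarith
  · have h1 := g3 (aα a) (aβ a.2) (Real.log y) (aβ a.2)
    rw [e1, e2, sub_self, Real.sin_zero, Real.cos_zero] at h1
    have h2 : 0 ≤ colN (aβ a.2) (gm (aα a) (aβ a.2) (Real.log y)).1 := Real.sqrt_nonneg _
    nlinarith

theorem tbig : S_nrm → S_gm → S_rc → S_trlow → S_big := by
  intro hn hg hr ht
  refine ⟨?_, ?_, 10 ^ 10, ?_⟩
  · rintro M a b hab _ ⟨g, hgm, y, hy, rfl⟩
    have h1 := ht M a b hab g hgm y⁻¹ hy
    rw [inv_inv] at h1
    have h2 := hgm.2.2.1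
    have h3 := hy.2.2.1
    push_cast at h2 h3
    change 2 < |tr2 (g * y)|
    have h4 : (10 : ℝ) ^ 4 * 10 ^ 4 ≤ nrm g.1 * nrm (y⁻¹).1 := by
      apply mul_le_mul <;> linarith
    linarith
  · rintro M g ⟨h1, h2⟩
    refine ⟨?_, ?_⟩
    · rw [big_tr_inv]; exact h1
    · rw [big_tr_inv]; exact h2
  · intro M hM
    have hM' : (10 : ℝ) ^ 10 ≤ (M : ℝ) := by exact_mod_cast hM
    have hM0 : (0 : ℝ) ≤ M := by linarith
    set q := Real.sqrt (M : ℝ) with hq
    have hqq : q ^ 2 = M := Real.sq_sqrt hM0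
    have hq0 : 0 ≤ q := Real.sqrt_nonneg _
    have hq5 : (10 : ℝ) ^ 5 ≤ q := by
      apply Real.le_sqrt_of_sq_le
      linarith
    have hs : Real.sqrt (10 ^ 4 * (M : ℝ)) = 100 * q := by
      rw [Real.sqrt_mul (by norm_num)]
      congr 1
      rw [show (10 : ℝ) ^ 4 = 100 ^ 2 by norm_num]
      exact Real.sqrt_sq (by norm_num)
    refine ⟨?_, ?_, ?_⟩
    · intro a l hl
      obtain ⟨g, g1, g2, g3, g4⟩ := big_std hn hg a (2 * 10 ^ 4) (by norm_num)
      have hl' : (l : ℝ) ≤ 10 := by exact_mod_cast hl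
      have hl0 : (0 : ℝ) ≤ l := Nat.cast_nonneg l
      exact ⟨g, by nlinarith, by nlinarith, by nlinarith, by nlinarith⟩
    · intro a
      obtain ⟨g, g1, g2, g3, g4⟩ := big_std hn hg a (100 * q) (by linarith)
      refine ⟨g, ⟨?_, ?_, ?_, ?_⟩, ?_, ?_⟩
      · push_cast; nlinarith
      · push_cast; nlinarith
      · push_cast; nlinarith
      · push_cast; rw [← hqq]; nlinarith
      · rw [hs]; linarith
      · rw [hs]; linarith
    · intro a b hab
      have hcl : IsClosed (geoSL.Tr M) := by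
        have c1 : Continuous fun g : SL2 => |tr2 g| := big_tr_cont.abs
        exact (isClosed_le continuous_const c1).inter (isClosed_le c1 continuous_const)
      refine closure_minimal ?_ hcl
      rintro _ ⟨g, hgm, y, hy, rfl⟩
      obtain ⟨hy1, hy2, hy3⟩ := hy
      rw [hs] at hy2 hy3
      have hyn := hn.1 (y⁻¹).1
      have hgn := hn.1 g.1
      have hw := big_win M b y⁻¹ hyn hy1
      have h1 := ht M a b hab g hgm y⁻¹ hw
      have h5 := hr.2.2.2.2.2 g y⁻¹
      rw [inv_inv] at h1 h5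
      have h2 := hgm.2.2.1
      have h3 := hgm.2.2.2
      push_cast at h2 h3
      change 2 * 10 ^ 8 ≤ |tr2 (g * y)| ∧ |tr2 (g * y)| ≤ (M : ℝ) ^ 2 / 2
      refine ⟨?_, ?_⟩
      · have h4 : (10 : ℝ) ^ 4 * (50 * q) ≤ nrm g.1 * nrm (y⁻¹).1 := by
          apply mul_le_mul <;> linarith
        linarith
      · have h4 : nrm g.1 * nrm (y⁻¹).1 ≤ M * (2 * (100 * q)) := by
          apply mul_le_mul <;> linarith
        have h6 : (M : ℝ) * (2 * (100 * q)) ≤ M ^ 2 / 2 := by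
          rw [← hqq]
          have : q ^ 2 * (2 * (100 * q)) = q ^ 3 * 200 := by ring
          rw [this]
          have h7 : (q ^ 2) ^ 2 / 2 = q ^ 3 * (q / 2) := by ring
          rw [h7]
          apply mul_le_mul_of_nonneg_left _ (by positivity)
          linarith
        linarith

end Pool.Agent.MPEF
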