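import Pool.Agent.Lib.MP_ef3f0f_gt.W.Spec

set_option autoImplicit false

/-! # MP_ef3f0f_gt: conjugation into the windows -/

namespace Pool.Agent.MPEF

open scoped Pointwise

private theorem cj_tr (g : SL2) : tr2 g = Matrix.trace g.1 := by
  rw [Matrix.trace_fin_two]
  rfl

private theorem cj_trc (h d : SL2) : tr2 (h * d * h⁻¹) = tr2 d := by
  have e : (h * d * h⁻¹).1 = h.1 * d.1 * (h⁻¹).1 := rfl
  have e2 : (h⁻¹).1 * h.1 = 1 := congrArg Subtype.val (inv_mul_cancel h)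
  rw [cj_tr, cj_tr, e, Matrix.trace_mul_comm, ← mul_assoc, e2, one_mul]

/-- Two elements with the same trace, `|tr| > 2`, are conjugate. -/
private theorem cj_conj (hd : S_diag) (g g' : SL2) (h : 2 < |tr2 g|) (h' : tr2 g' = tr2 g) :
    ∃ q : SL2, q⁻¹ * g * q = g' := by
  obtain ⟨l, hl, a, h1, h2⟩ := hd g h
  obtain ⟨l', hl', a', h1', h2'⟩ := hd g' (by rwa [h'])
  have h3 : tr2 g = l + l⁻¹ := by
    rw [h2, cj_trc]
    rfl
  have h3' : tr2 g' = l' + l'⁻¹ := by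
    rw [h2', cj_trc]
    rfl
  have h4 : l' = l := by
    rw [h3, h3'] at h'
    have h5 : (l' - l) * (l * l' - 1) = 0 := by
      field_simp at h'
      linear_combination h'
    rcases mul_eq_zero.1 h5 with h6 | h6
    · linarith
    · have h7 : |l * l'| = 1 := by
        rw [sub_eq_zero.1 h6, abs_one]
      rw [abs_mul] at h7
      nlinarith
  subst h4
  refine ⟨a * a'⁻¹, ?_⟩
  rw [h2, h2']
  group

private theorem cj_x (y : ℝ) (hy : 1 ≤ y) : ∃ x : ℝ, 0 ≤ x ∧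
    Real.exp (2 * x) + Real.exp (-(2 * x)) = 2 * y := by
  have h0 : 0 ≤ y ^ 2 - 1 := by nlinarith
  have h1 : Real.sqrt (y ^ 2 - 1) ^ 2 = y ^ 2 - 1 := Real.sq_sqrt h0
  have h2 : 0 ≤ Real.sqrt (y ^ 2 - 1) := Real.sqrt_nonneg _
  have h3 : 0 < y + Real.sqrt (y ^ 2 - 1) := by linarith
  refine ⟨Real.log (y + Real.sqrt (y ^ 2 - 1)) / 2, ?_, ?_⟩
  · exact div_nonneg (Real.log_nonneg (by linarith)) (by norm_num)
  · rw [mul_div_cancel₀ _ (by norm_num : (2 : ℝ) ≠ 0), Real.exp_neg, Real.exp_log h3,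
      inv_eq_of_mul_eq_one_right (b := y - Real.sqrt (y ^ 2 - 1)) (by linear_combination -h1)]
    ring

private theorem cj_mem (M : ℕ) (a : Ty) (g : SL2) (N : ℝ) (h0 : 0 ≤ nrm g.1)
    (h1 : nrm g.1 ^ 2 = N) (h2 : 2 * 10 ^ 8 ≤ N) (h3 : 12 / 10 * N ≤ (M : ℝ) ^ 2)
    (h4 : rowN (aα a) g.1 ^ 2 ≤ 1) (h5 : colN (aβ a.2) g.1 ^ 2 ≤ 1) : g ∈ winS M a 6 := by
  have h6 : rowN (aα a) g.1 ≤ 1 := by nlinarith
  have h7 : colN (aβ a.2) g.1 ≤ 1 := by nlinarith
  have h8 : 14 * 10 ^ 3 < nrm g.1 := by nlinarith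
  have h9 : nrm g.1 * (1006 / 1000) < M := by
    have hM : (0 : ℝ) ≤ M := Nat.cast_nonneg M
    nlinarith
  refine ⟨?_, ?_, ?_, ?_⟩
  · push_cast
    norm_num
    linarith
  · push_cast
    norm_num
    linarith
  · push_cast
    norm_num
    linarith
  · push_cast
    norm_num
    linarith

private theorem cj_sin : 6 / 10 ≤ Real.sin (2 * Real.pi / 5) := by
  have h1 : Real.sin (Real.pi / 3) ≤ Real.sin (2 * Real.pi / 5) := by
    apply Real.sin_le_sin_of_le_of_le_pi_div_two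
    · linarith [Real.pi_pos]
    · linarith [Real.pi_pos]
    · linarith [Real.pi_pos]
  rw [Real.sin_pi_div_three] at h1
  have h2 : (12 / 10 : ℝ) ≤ Real.sqrt 3 := by
    apply Real.le_sqrt_of_sq_le
    norm_num
  linarith

theorem tcj : S_diag → S_nrm → S_gm → S_wtop → S_cj := by
  intro hd hn hg hw
  obtain ⟨n0, -⟩ := hn
  obtain ⟨g1, g2, g3, g4, g5, -⟩ := hg
  refine ⟨0, fun M _ g hT => ?_⟩
  obtain ⟨hT1, hT2⟩ : 2 * 10 ^ 8 ≤ |tr2 g| ∧ |tr2 g| ≤ (M : ℝ) ^ 2 / 2 := hT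
  have hσ := cj_sin
  have hσ1 : Real.sin (2 * Real.pi / 5) ≤ 1 := Real.sin_le_one _
  set σ := Real.sin (2 * Real.pi / 5) with hσd
  have hσ0 : 0 < σ := by linarith
  have hN1 : |tr2 g| ≤ |tr2 g| / σ := by
    rw [le_div_iff₀ hσ0]
    nlinarith [abs_nonneg (tr2 g)]
  have hN2 : |tr2 g| / σ * (6 / 10) ≤ |tr2 g| := by
    rw [div_mul_eq_mul_div, div_le_iff₀ hσ0]
    nlinarith [abs_nonneg (tr2 g)]
  obtain ⟨x, hx, hx2⟩ := cj_x (|tr2 g| / σ / 2) (by
    rw [le_div_iff₀ (by norm_num)]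
    linarith)
  have hx3 : Real.exp (2 * x) + Real.exp (-(2 * x)) = |tr2 g| / σ := by
    rw [hx2]
    ring
  have he : Real.exp (-(2 * x)) ≤ 1 := by
    rw [Real.exp_le_one_iff]
    linarith
  have hmem : ∀ (a : Ty) (s t : ℝ), Real.sin (s - aα a) = 0 → Real.sin (t - aβ a.2) = 0 →
      gm s t x ∈ winS M a 6 := by
    intro a s t hs ht
    refine cj_mem M a _ (|tr2 g| / σ) (n0 _) (by rw [g1, hx3]) (by linarith) (by linarith) ?_ ?_
    · rw [g2, hs]
      have h1 : Real.cos (s - aα a) ^ 2 = 1 := by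
        have := Real.sin_sq_add_cos_sq (s - aα a)
        rw [hs] at this
        linarith
      rw [h1]
      linarith
    · rw [g3, ht]
      have h1 : Real.cos (t - aβ a.2) ^ 2 = 1 := by
        have := Real.sin_sq_add_cos_sq (t - aβ a.2)
        rw [ht] at this
        linarith
      rw [h1]
      linarith
  have a0 : aα ((0 : Fin 5), (8 : Fin 16)) = 0 := by
    unfold aα
    simp
  have b0 : aβ (8 : Fin 16) = Real.pi / 2 := by
    unfold aβ
    have : (((8 : Fin 16).val : ℕ) : ℝ) = 8 := by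
      norm_num
    rw [this]
    ring
  have a1 : aα ((2 : Fin 5), (0 : Fin 16)) = 2 * Real.pi / 5 := by
    unfold aα
    have : (((2 : Fin 5).val : ℕ) : ℝ) = 2 := by
      norm_num
    change Real.pi * (((2 : Fin 5).val : ℕ) : ℝ) / 5 = _
    rw [this]
    ring
  have b1 : aβ (0 : Fin 16) = 0 := by
    unfold aβ
    simp
  have hg1 : gm (2 * Real.pi / 5) 0 x ∈ winS M (2, 0) 6 := by
    apply hmem
    · rw [a1, sub_self, Real.sin_zero]
    · change Real.sin (0 - aβ (0 : Fin 16)) = 0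
      rw [b1, sub_self, Real.sin_zero]
  have hch : 2 * Real.cosh (x + x) = |tr2 g| / σ := by
    rw [← hx3, Real.cosh_eq]
    rw [show x + x = 2 * x by ring]
    ring
  have h2T : 2 < |tr2 g| := by linarith
  rcases le_total (tr2 g) 0 with hneg | hpos
  · have hg0 : gm 0 (Real.pi / 2) x ∈ winS M (0, 8) 6 := by
      apply hmem
      · rw [a0, sub_self, Real.sin_zero]
      · change Real.sin (Real.pi / 2 - aβ (8 : Fin 16)) = 0
        rw [b0, sub_self, Real.sin_zero]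
    refine ⟨_, hg0, _, hg1, cj_conj hd g _ h2T ?_⟩
    rw [g4, hch, sub_zero, Real.cos_pi_div_two, Real.sin_pi_div_two, zero_sub, Real.sin_neg,
      ← hσd, abs_of_nonpos hneg]
    field_simp
    ring
  · have hg0 : gm Real.pi (Real.pi / 2) x ∈ winS M (0, 8) 6 := by
      apply hmem
      · rw [a0, sub_zero, Real.sin_pi]
      · change Real.sin (Real.pi / 2 - aβ (8 : Fin 16)) = 0
        rw [b0, sub_self, Real.sin_zero]
    refine ⟨_, hg0, _, hg1, cj_conj hd g _ h2T ?_⟩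
    rw [g4, hch, sub_zero, Real.cos_pi_div_two, Real.sin_pi_div_two, Real.sin_pi_sub,
      ← hσd, abs_of_nonneg hpos]
    field_simp
    ring

end Pool.Agent.MPEF
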