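import Pool.Agent.Lib.MP_ef3f0f_gt.W.Spec

set_option autoImplicit false

/-!
# MP_ef3f0f_gt, W/cover: covering of the directions
-/

namespace Pool.Agent.MPEF

open scoped Pointwise

private theorem cover_polar (x y : ℝ) : ∃ θ : ℝ, x = Real.sqrt (x ^ 2 + y ^ 2) * Real.cos θ ∧
    y = Real.sqrt (x ^ 2 + y ^ 2) * Real.sin θ := by
  refine ⟨Complex.arg ⟨x, y⟩, ?_, ?_⟩
  · have h := Complex.norm_mul_cos_arg ⟨x, y⟩
    rw [Complex.norm_eq_sqrt_sq_add_sq] at h
    exact h.symm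
  · have h := Complex.norm_mul_sin_arg ⟨x, y⟩
    rw [Complex.norm_eq_sqrt_sq_add_sq] at h
    exact h.symm

private theorem cover_expr (β ρ θ : ℝ) :
    -Real.sin β * (ρ * Real.cos θ) + Real.cos β * (ρ * Real.sin θ) = ρ * Real.sin (θ - β) := by
  rw [Real.sin_sub]
  ring

private theorem cover_near (θ : ℝ) : ∃ j : Fin 16, |Real.sin (θ - aβ j)| ≤ 982 / 10000 := by
  have hpi : Real.pi < 3.1416 := Real.pi_lt_d4
  have hpos : 0 < Real.pi := Real.pi_pos
  let n : ℤ := round (16 * θ / Real.pi)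
  have hn : |16 * θ / Real.pi - n| ≤ 1 / 2 := abs_sub_round _
  have h1 : |θ - Real.pi * n / 16| ≤ 982 / 10000 := by
    have h2 : θ - Real.pi * n / 16 = (Real.pi / 16) * (16 * θ / Real.pi - n) := by
      field_simp
    rw [h2, abs_mul, abs_of_pos (by positivity : 0 < Real.pi / 16)]
    have h3 : Real.pi / 16 * |16 * θ / Real.pi - n| ≤ Real.pi / 16 * (1 / 2) :=
      mul_le_mul_of_nonneg_left hn (by positivity)
    norm_num at hpi
    linarith
  have hm0 : 0 ≤ n % 16 := Int.emod_nonneg n (by norm_num)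
  have hm1 : n % 16 < 16 := Int.emod_lt_of_pos n (by norm_num)
  refine ⟨⟨(n % 16).toNat, by omega⟩, ?_⟩
  have h4 : ((⟨(n % 16).toNat, by omega⟩ : Fin 16).val : ℝ) = (n : ℝ) - 16 * (n / 16 : ℤ) := by
    have h5 : (((n % 16).toNat : ℤ)) = n - 16 * (n / 16) := by
      rw [Int.toNat_of_nonneg hm0]
      omega
    have h6 : (((n % 16).toNat : ℕ) : ℝ) = ((((n % 16).toNat : ℕ) : ℤ) : ℝ) := by
      rw [Int.cast_natCast]
    change (((n % 16).toNat : ℕ) : ℝ) = _
    rw [h6, h5, Int.cast_sub, Int.cast_mul]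
    norm_num
  have h5 : θ - aβ ⟨(n % 16).toNat, by omega⟩ =
      (θ - Real.pi * n / 16) + ((n / 16 : ℤ) : ℝ) * Real.pi := by
    unfold aβ
    rw [h4]
    ring
  rw [h5, Real.sin_add_int_mul_pi, abs_mul, abs_neg_one_zpow, one_mul]
  exact Real.abs_sin_le_abs.trans h1

private theorem cover_sub (x y : ℝ) : |Real.sin (x - y)| ≤ |Real.sin x| + |Real.sin y| := by
  rw [Real.sin_sub]
  refine (abs_sub _ _).trans ?_
  rw [abs_mul, abs_mul]
  have h1 := Real.abs_cos_le_one x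
  have h2 := Real.abs_cos_le_one y
  have h3 := abs_nonneg (Real.sin x)
  have h4 := abs_nonneg (Real.sin y)
  nlinarith

private theorem cover_low (k : ℕ) (h1 : 2 ≤ k) (h2 : k ≤ 14) :
    1 / 4 ≤ Real.sin (Real.pi * k / 16) := by
  have hpos : 0 < Real.pi := Real.pi_pos
  have key : ∀ l : ℝ, 2 ≤ l → l ≤ 8 → 1 / 4 ≤ Real.sin (Real.pi * l / 16) := by
    intro l hl hl'
    have h3 : (2 : ℝ) / Real.pi * (Real.pi * l / 16) ≤ Real.sin (Real.pi * l / 16) := by
      apply Real.mul_le_sin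
      · positivity
      · have : Real.pi * l ≤ Real.pi * 8 := mul_le_mul_of_nonneg_left hl' hpos.le
        linarith
    have h4 : (2 : ℝ) / Real.pi * (Real.pi * l / 16) = l / 8 := by
      field_simp
      ring
    linarith
  rcases Nat.le_total k 8 with h | h
  · exact key k (by exact_mod_cast h1) (by exact_mod_cast h)
  · have h3 : Real.sin (Real.pi * k / 16) = Real.sin (Real.pi * (16 - k : ℝ) / 16) := by
      rw [← Real.sin_pi_sub]
      congr 1
      ring
    rw [h3]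
    have h4 : (k : ℝ) ≤ 14 := by exact_mod_cast h2
    have h5 : (8 : ℝ) ≤ k := by exact_mod_cast h
    exact key _ (by linarith) (by linarith)

private theorem cover_fin (j j' : Fin 16) (h : |Real.sin (aβ j - aβ j')| < 1 / 4) :
    j' = j ∨ j' = j + 1 ∨ j = j' + 1 := by
  have h1 : ∀ a b : Fin 16, a.val ≤ b.val → |Real.sin (aβ a - aβ b)| < 1 / 4 →
      b.val - a.val < 2 ∨ 14 < b.val - a.val := by
    intro a b hab hs
    by_contra hcon
    push Not at hcon
    have h2 := cover_low (b.val - a.val) hcon.1 hcon.2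
    have h3 : aβ a - aβ b = -(Real.pi * ((b.val - a.val : ℕ) : ℝ) / 16) := by
      unfold aβ
      rw [Nat.cast_sub hab]
      ring
    rw [h3, Real.sin_neg, abs_neg] at hs
    have h4 := le_abs_self (Real.sin (Real.pi * ((b.val - a.val : ℕ) : ℝ) / 16))
    linarith
  have hj := j.isLt
  have hj' := j'.isLt
  rw [Fin.ext_iff, Fin.ext_iff, Fin.ext_iff, Fin.val_add, Fin.val_add]
  have e1 : ((1 : Fin 16) : ℕ) = 1 := rfl
  rw [e1]
  rcases Nat.le_total j.val j'.val with hle | hle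
  · have h2 := h1 j j' hle h
    omega
  · have h2 := h1 j' j hle (by
      rw [← abs_neg, ← Real.sin_neg, neg_sub]
      exact h)
    omega

private theorem cover_pos (v : V2) (hv : v ≠ 0) : 0 < Real.sqrt (v 0 ^ 2 + v 1 ^ 2) := by
  apply Real.sqrt_pos.2
  by_contra hcon
  apply hv
  have h0 := sq_nonneg (v 0)
  have h1 := sq_nonneg (v 1)
  have e0 : v 0 ^ 2 = 0 := by linarith
  have e1 : v 1 ^ 2 = 0 := by linarith
  ext i
  fin_cases i
  · exact pow_eq_zero_iff (two_ne_zero) |>.1 e0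
  · exact pow_eq_zero_iff (two_ne_zero) |>.1 e1

theorem tcover : S_gm → S_cover := by
  intro _
  refine ⟨?_, ?_⟩
  · intro v
    obtain ⟨θ, h0, h1⟩ := cover_polar (v 0) (v 1)
    obtain ⟨j, hj⟩ := cover_near θ
    refine ⟨j, ?_⟩
    have h2 : -Real.sin (aβ j) * v 0 + Real.cos (aβ j) * v 1 =
        Real.sqrt (v 0 ^ 2 + v 1 ^ 2) * Real.sin (θ - aβ j) := by
      rw [← cover_expr, ← h0, ← h1]
    rw [h2, abs_mul, abs_of_nonneg (Real.sqrt_nonneg _), mul_comm]
    exact mul_le_mul_of_nonneg_right hj (Real.sqrt_nonneg _)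
  · intro v v' j j' hv hv' hj hj' hd
    obtain ⟨θ, h0, h1⟩ := cover_polar (v 0) (v 1)
    obtain ⟨θ', h0', h1'⟩ := cover_polar (v' 0) (v' 1)
    have hρ := cover_pos v hv
    have hρ' := cover_pos v' hv'
    have h2 : -Real.sin (aβ j) * v 0 + Real.cos (aβ j) * v 1 =
        Real.sqrt (v 0 ^ 2 + v 1 ^ 2) * Real.sin (θ - aβ j) := by
      rw [← cover_expr, ← h0, ← h1]
    have h2' : -Real.sin (aβ j') * v' 0 + Real.cos (aβ j') * v' 1 =
        Real.sqrt (v' 0 ^ 2 + v' 1 ^ 2) * Real.sin (θ' - aβ j') := by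
      rw [← cover_expr, ← h0', ← h1']
    have h3 : det2 v v' = Real.sqrt (v 0 ^ 2 + v 1 ^ 2) * Real.sqrt (v' 0 ^ 2 + v' 1 ^ 2) *
        Real.sin (θ' - θ) := by
      set ρ := Real.sqrt (v 0 ^ 2 + v 1 ^ 2)
      set ρ' := Real.sqrt (v' 0 ^ 2 + v' 1 ^ 2)
      unfold det2
      rw [h0, h1, h0', h1', Real.sin_sub]
      ring
    rw [h2, abs_mul, abs_of_pos hρ, mul_comm] at hj
    rw [h2', abs_mul, abs_of_pos hρ', mul_comm] at hj'
    rw [h3, abs_mul, abs_of_pos (mul_pos hρ hρ'), mul_comm] at hd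
    have k1 := le_of_mul_le_mul_right hj hρ
    have k2 := le_of_mul_le_mul_right hj' hρ'
    have k3 := le_of_mul_le_mul_right hd (mul_pos hρ hρ')
    apply cover_fin
    have h5 : aβ j - aβ j' = (θ' - aβ j') - (θ - aβ j) - (θ' - θ) := by ring
    rw [h5]
    have h6 := cover_sub ((θ' - aβ j') - (θ - aβ j)) (θ' - θ)
    have h7 := cover_sub (θ' - aβ j') (θ - aβ j)
    norm_num at k1 k2 k3 ⊢
    linarith

end Pool.Agent.MPEF
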