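import Pool.Agent.Lib.MP_ef3f0f_gt.W.Spec

set_option autoImplicit false

/-!
# MP_ef3f0f_gt, W/gm: formulas for the matrices `gm`
-/

namespace Pool.Agent.MPEF

open scoped Pointwise

private theorem gm_smul0 (g : SL2) (v : V2) : (g • v) 0 = g.1 0 0 * v 0 + g.1 0 1 * v 1 := by
  have h : (g • v) 0 = ∑ j : Fin 2, g.1 0 j * v j := rfl
  rw [h, Fin.sum_univ_two]

private theorem gm_smul1 (g : SL2) (v : V2) : (g • v) 1 = g.1 1 0 * v 0 + g.1 1 1 * v 1 := by
  have h : (g • v) 1 = ∑ j : Fin 2, g.1 1 j * v j := rfl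
  rw [h, Fin.sum_univ_two]

private theorem gm_mat (s t x : ℝ) : (gm s t x).1 =
    !![Real.cos s * Real.cos t * Real.exp x + Real.sin s * Real.sin t * Real.exp (-x),
       Real.cos s * Real.sin t * Real.exp x - Real.sin s * Real.cos t * Real.exp (-x);
       Real.sin s * Real.cos t * Real.exp x - Real.cos s * Real.sin t * Real.exp (-x),
       Real.sin s * Real.sin t * Real.exp x + Real.cos s * Real.cos t * Real.exp (-x)] := by
  have h : (gm s t x).1 = (rot s).1 * (dgx x).1 * (rot (-t)).1 := rfl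
  rw [h]
  simp only [rot, dgx, Real.cos_neg, Real.sin_neg, Matrix.mul_fin_two, neg_neg]
  ext i j
  fin_cases i <;> fin_cases j <;>
    simp only [Fin.zero_eta, Fin.mk_one, Matrix.of_apply, Matrix.cons_val', Matrix.cons_val_zero,
      Matrix.cons_val_one, Matrix.cons_val_fin_one, Fin.isValue] <;> ring

private theorem gm00 (s t x : ℝ) : (gm s t x).1 0 0 =
    Real.cos s * Real.cos t * Real.exp x + Real.sin s * Real.sin t * Real.exp (-x) := by
  rw [gm_mat]; rfl

private theorem gm01 (s t x : ℝ) : (gm s t x).1 0 1 =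
    Real.cos s * Real.sin t * Real.exp x - Real.sin s * Real.cos t * Real.exp (-x) := by
  rw [gm_mat]; rfl

private theorem gm10 (s t x : ℝ) : (gm s t x).1 1 0 =
    Real.sin s * Real.cos t * Real.exp x - Real.cos s * Real.sin t * Real.exp (-x) := by
  rw [gm_mat]; rfl

private theorem gm11 (s t x : ℝ) : (gm s t x).1 1 1 =
    Real.sin s * Real.sin t * Real.exp x + Real.cos s * Real.cos t * Real.exp (-x) := by
  rw [gm_mat]; rfl

private theorem gm_exp2 (x : ℝ) : Real.exp (2 * x) = Real.exp x ^ 2 := by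
  rw [← Real.exp_nat_mul]
  norm_num

private theorem gm_expn2 (x : ℝ) : Real.exp (-(2 * x)) = Real.exp (-x) ^ 2 := by
  rw [← Real.exp_nat_mul]
  congr 1
  push_cast
  ring

private theorem gm_nrm (h : S_nrm) (s t x : ℝ) :
    nrm (gm s t x).1 ^ 2 = Real.exp (2 * x) + Real.exp (-(2 * x)) := by
  obtain ⟨-, -, -, -, -, -, -, -, h9, -⟩ := h
  rw [h9, gm00, gm01, gm10, gm11, gm_exp2, gm_expn2]
  have hs := Real.sin_sq_add_cos_sq s
  have ht := Real.sin_sq_add_cos_sq t
  set E := Real.exp x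
  set F := Real.exp (-x)
  set a := Real.cos s
  set b := Real.sin s
  set c := Real.cos t
  set d := Real.sin t
  have h1 : (a * c * E + b * d * F) ^ 2 + (a * d * E - b * c * F) ^ 2 +
      (b * c * E - a * d * F) ^ 2 + (b * d * E + a * c * F) ^ 2 =
      (b ^ 2 + a ^ 2) * (d ^ 2 + c ^ 2) * (E ^ 2 + F ^ 2) := by ring
  rw [h1, hs, ht]
  ring

private theorem gm_row (s t x θ : ℝ) : rowN θ (gm s t x).1 ^ 2 =
    Real.exp (2 * x) * Real.sin (s - θ) ^ 2 + Real.exp (-(2 * x)) * Real.cos (s - θ) ^ 2 := by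
  unfold rowN
  rw [Real.sq_sqrt (by positivity), gm00, gm01, gm10, gm11, gm_exp2, gm_expn2, Real.sin_sub,
    Real.cos_sub]
  have ht := Real.sin_sq_add_cos_sq t
  set E := Real.exp x
  set F := Real.exp (-x)
  set a := Real.cos s
  set b := Real.sin s
  set c := Real.cos t
  set d := Real.sin t
  set p := Real.cos θ
  set q := Real.sin θ
  have h1 : (-q * (a * c * E + b * d * F) + p * (b * c * E - a * d * F)) ^ 2 +
      (-q * (a * d * E - b * c * F) + p * (b * d * E + a * c * F)) ^ 2 =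
      (d ^ 2 + c ^ 2) * (E ^ 2 * (b * p - a * q) ^ 2 + F ^ 2 * (a * p + b * q) ^ 2) := by ring
  rw [h1, ht, one_mul]

private theorem gm_col (s t x θ : ℝ) : colN θ (gm s t x).1 ^ 2 =
    Real.exp (2 * x) * Real.sin (t - θ) ^ 2 + Real.exp (-(2 * x)) * Real.cos (t - θ) ^ 2 := by
  unfold colN
  rw [Real.sq_sqrt (by positivity), gm00, gm01, gm10, gm11, gm_exp2, gm_expn2, Real.sin_sub,
    Real.cos_sub]
  have hs := Real.sin_sq_add_cos_sq s
  set E := Real.exp x
  set F := Real.exp (-x)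
  set a := Real.cos s
  set b := Real.sin s
  set c := Real.cos t
  set d := Real.sin t
  set p := Real.cos θ
  set q := Real.sin θ
  have h1 : (-q * (a * c * E + b * d * F) + p * (a * d * E - b * c * F)) ^ 2 +
      (-q * (b * c * E - a * d * F) + p * (b * d * E + a * c * F)) ^ 2 =
      (b ^ 2 + a ^ 2) * (E ^ 2 * (d * p - c * q) ^ 2 + F ^ 2 * (c * p + d * q) ^ 2) := by ring
  rw [h1, hs, one_mul]

private theorem gm_inv (h : S_nrm) (g : SL2) : (g⁻¹).1 = !![g.1 1 1, -g.1 0 1; -g.1 1 0, g.1 0 0] := by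
  obtain ⟨-, -, -, -, -, -, -, -, -, -, -, h12, -⟩ := h
  rw [h12, Matrix.adjugate_fin_two]

private theorem gm_trmul (h : S_nrm) (g g' : SL2) : tr2 (g * g'⁻¹) =
    g.1 0 0 * g'.1 1 1 - g.1 0 1 * g'.1 1 0 - g.1 1 0 * g'.1 0 1 + g.1 1 1 * g'.1 0 0 := by
  have h1 : ∀ i, (g * g'⁻¹).1 i i = g.1 i 0 * (g'⁻¹).1 0 i + g.1 i 1 * (g'⁻¹).1 1 i := by
    intro i
    have h2 : (g * g'⁻¹).1 = g.1 * (g'⁻¹).1 := rfl
    rw [h2, Matrix.mul_apply, Fin.sum_univ_two]
  unfold tr2
  rw [h1, h1, gm_inv h g']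
  simp only [Matrix.of_apply, Matrix.cons_val', Matrix.cons_val_zero, Matrix.cons_val_one,
    Matrix.cons_val_fin_one]
  ring

private theorem gm_tr (h : S_nrm) (s t x s' t' x' : ℝ) : tr2 (gm s t x * (gm s' t' x')⁻¹) =
    2 * Real.cosh (x - x') * (Real.cos (s - s') * Real.cos (t - t')) +
    2 * Real.cosh (x + x') * (Real.sin (s - s') * Real.sin (t - t')) := by
  rw [gm_trmul h]
  simp only [gm00, gm01, gm10, gm11]
  rw [Real.cosh_eq, Real.cosh_eq, Real.cos_sub, Real.cos_sub, Real.sin_sub, Real.sin_sub]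
  have e1 : Real.exp (x - x') = Real.exp x * Real.exp (-x') := by
    rw [← Real.exp_add]; congr 1
  have e2 : Real.exp (-(x - x')) = Real.exp (-x) * Real.exp x' := by
    rw [← Real.exp_add]; congr 1; ring
  have e3 : Real.exp (x + x') = Real.exp x * Real.exp x' := Real.exp_add _ _
  have e4 : Real.exp (-(x + x')) = Real.exp (-x) * Real.exp (-x') := by
    rw [← Real.exp_add]; congr 1; ring
  rw [e1, e2, e3, e4]
  ring

theorem tgm : S_nrm → S_gm := by
  intro h
  refine ⟨gm_nrm h, gm_row, gm_col, gm_tr h, ?_, ?_, ?_, ?_, ?_, ?_, ?_⟩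
  · intro s t x
    rw [gm_mat, gm_mat, Real.cos_add_pi, Real.sin_add_pi]
    ext i j
    fin_cases i <;> fin_cases j <;>
      simp only [Fin.zero_eta, Fin.mk_one, Matrix.of_apply, Matrix.cons_val', Matrix.cons_val_zero,
        Matrix.cons_val_one, Matrix.cons_val_fin_one, Fin.isValue, Matrix.neg_apply] <;> ring
  · intro s t x
    rw [gm_mat, gm_mat, Real.cos_add_pi, Real.sin_add_pi]
    ext i j
    fin_cases i <;> fin_cases j <;>
      simp only [Fin.zero_eta, Fin.mk_one, Matrix.of_apply, Matrix.cons_val', Matrix.cons_val_zero,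
        Matrix.cons_val_one, Matrix.cons_val_fin_one, Fin.isValue, Matrix.neg_apply] <;> ring
  · intro s θ
    ext i
    fin_cases i
    · change (rot s • dir θ) 0 = dir (θ + s) 0
      rw [gm_smul0]
      simp only [rot, dir, Matrix.of_apply, Matrix.cons_val', Matrix.cons_val_zero,
        Matrix.cons_val_one, Matrix.cons_val_fin_one]
      rw [Real.cos_add]
      ring
    · change (rot s • dir θ) 1 = dir (θ + s) 1
      rw [gm_smul1]
      simp only [rot, dir, Matrix.of_apply, Matrix.cons_val', Matrix.cons_val_zero,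
        Matrix.cons_val_one, Matrix.cons_val_fin_one]
      rw [Real.sin_add]
      ring
  · intro s
    apply Subtype.ext
    rw [gm_inv h]
    ext i j
    fin_cases i <;> fin_cases j <;>
      simp [rot]
  · intro x
    apply Subtype.ext
    rw [gm_inv h]
    ext i j
    fin_cases i <;> fin_cases j <;>
      simp [dgx]
  · intro x v
    ext i
    fin_cases i
    · change (dgx x • v) 0 = Real.exp x * v 0
      rw [gm_smul0]
      simp [dgx]
    · change (dgx x • v) 1 = Real.exp (-x) * v 1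
      rw [gm_smul1]
      simp [dgx]
  · intro θ θ'
    simp only [det2, dir, Matrix.cons_val_zero, Matrix.cons_val_one, Matrix.cons_val_fin_one]
    rw [Real.sin_sub]
    ring

end Pool.Agent.MPEF
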