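import Pool.Agent.Lib.MP_ef3f0f_gt.W.Spec

set_option autoImplicit false

/-! # MP_ef3f0f_gt: norm inequalities -/

namespace Pool.Agent.MPEF

open scoped Pointwise

private theorem rc_add (a b c d : ℝ) : Real.sqrt ((a + c) ^ 2 + (b + d) ^ 2) ≤
    Real.sqrt (a ^ 2 + b ^ 2) + Real.sqrt (c ^ 2 + d ^ 2) := by
  have h1 : 0 ≤ Real.sqrt (a ^ 2 + b ^ 2) := Real.sqrt_nonneg _
  have h2 : 0 ≤ Real.sqrt (c ^ 2 + d ^ 2) := Real.sqrt_nonneg _
  have h3 : Real.sqrt (a ^ 2 + b ^ 2) ^ 2 = a ^ 2 + b ^ 2 := Real.sq_sqrt (by positivity)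
  have h4 : Real.sqrt (c ^ 2 + d ^ 2) ^ 2 = c ^ 2 + d ^ 2 := Real.sq_sqrt (by positivity)
  have h5 : a * c + b * d ≤ Real.sqrt (a ^ 2 + b ^ 2) * Real.sqrt (c ^ 2 + d ^ 2) := by
    apply le_of_sq_le_sq _ (mul_nonneg h1 h2)
    rw [mul_pow, h3, h4]
    nlinarith [sq_nonneg (a * d - b * c)]
  rw [Real.sqrt_le_left (add_nonneg h1 h2)]
  nlinarith

private theorem rc_mul (v w a b c d : ℝ) :
    Real.sqrt ((v * a + w * c) ^ 2 + (v * b + w * d) ^ 2) ≤
      Real.sqrt (v ^ 2 + w ^ 2) * Real.sqrt (a ^ 2 + b ^ 2 + c ^ 2 + d ^ 2) := by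
  rw [← Real.sqrt_mul (by positivity)]
  apply Real.sqrt_le_sqrt
  nlinarith [sq_nonneg (v * c - w * a), sq_nonneg (v * d - w * b)]

private theorem rc_rowadd (θ : ℝ) (A B : M2) : rowN θ (A + B) ≤ rowN θ A + rowN θ B := by
  unfold rowN
  refine le_trans (le_of_eq ?_) (rc_add _ _ _ _)
  congr 1
  simp only [Matrix.add_apply]
  ring

private theorem rc_rowmul (θ : ℝ) (A B : M2) : rowN θ (A * B) ≤ rowN θ A * nrm B := by
  unfold rowN nrm
  refine le_trans (le_of_eq ?_) (rc_mul _ _ _ _ _ _)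
  congr 1
  simp only [Matrix.mul_apply, Fin.sum_univ_two]
  ring

private theorem rc_rownrm (θ : ℝ) (A : M2) : rowN θ A ≤ nrm A := by
  unfold rowN nrm
  have h := rc_mul (-Real.sin θ) (Real.cos θ) (A 0 0) (A 0 1) (A 1 0) (A 1 1)
  have h2 : (-Real.sin θ) ^ 2 + Real.cos θ ^ 2 = 1 := by
    rw [neg_sq]
    exact Real.sin_sq_add_cos_sq θ
  rwa [h2, Real.sqrt_one, one_mul] at h

private theorem rc_tr (A : M2) : nrm A.transpose = nrm A := by
  unfold nrm
  congr 1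
  simp only [Matrix.transpose_apply]
  ring

private theorem rc_col (θ : ℝ) (A : M2) : colN θ A = rowN θ A.transpose := rfl

private theorem rc_coladd (θ : ℝ) (A B : M2) : colN θ (A + B) ≤ colN θ A + colN θ B := by
  rw [rc_col, rc_col, rc_col, Matrix.transpose_add]
  exact rc_rowadd _ _ _

private theorem rc_colmul (θ : ℝ) (A B : M2) : colN θ (A * B) ≤ nrm A * colN θ B := by
  rw [rc_col, rc_col, Matrix.transpose_mul, mul_comm (nrm A), ← rc_tr A]
  exact rc_rowmul _ _ _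

private theorem rc_colnrm (θ : ℝ) (A : M2) : colN θ A ≤ nrm A := by
  rw [rc_col, ← rc_tr A]
  exact rc_rownrm _ _

private theorem rc_trace (A B : M2) :
    |A 0 0 * B 0 0 + A 0 1 * B 1 0 + (A 1 0 * B 0 1 + A 1 1 * B 1 1)| ≤ nrm A * nrm B := by
  unfold nrm
  rw [← Real.sqrt_mul (by positivity)]
  apply Real.abs_le_sqrt
  nlinarith [sq_nonneg (A 0 0 * B 1 0 - A 0 1 * B 0 0), sq_nonneg (A 0 0 * B 0 1 - A 1 0 * B 0 0),
    sq_nonneg (A 0 0 * B 1 1 - A 1 1 * B 0 0), sq_nonneg (A 0 1 * B 0 1 - A 1 0 * B 1 0),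
    sq_nonneg (A 0 1 * B 1 1 - A 1 1 * B 1 0), sq_nonneg (A 1 0 * B 1 1 - A 1 1 * B 0 1)]

theorem trc : S_nrm → S_Bs → S_rc := by
  intro hn hB
  obtain ⟨n0, -, nadd, -, -, nmul, -, -, -, -, -, ninv, ninv2, -⟩ := hn
  obtain ⟨-, -, binv, -⟩ := hB
  have hmul : ∀ p g : SL2, nrm (p * g).1 ≤ nrm p.1 * nrm g.1 := fun p g => nmul p.1 g.1
  have key : ∀ (t : ℝ) (p g q : SL2), 0 ≤ t → p ∈ Bs t → q ∈ Bs t →
      nrm (p * g * q).1 ≤ (1 + t) ^ 2 * nrm g.1 := by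
    intro t p g q ht hp hq
    have hp' : nrm (p.1 - 1) < t := hp
    have hq' : nrm (q.1 - 1) < t := hq
    have e1 : (p * g * q).1 = p.1 * g.1 + p.1 * g.1 * (q.1 - 1) := by
      change p.1 * g.1 * q.1 = _
      rw [mul_sub, mul_one]
      abel
    have e2 : p.1 * g.1 = g.1 + (p.1 - 1) * g.1 := by
      rw [sub_mul, one_mul]
      abel
    have h1 : nrm (p.1 * g.1) ≤ (1 + t) * nrm g.1 := by
      calc nrm (p.1 * g.1) = nrm (g.1 + (p.1 - 1) * g.1) := by rw [← e2]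
        _ ≤ nrm g.1 + nrm ((p.1 - 1) * g.1) := nadd _ _
        _ ≤ nrm g.1 + nrm (p.1 - 1) * nrm g.1 := by linarith [nmul (p.1 - 1) g.1]
        _ ≤ (1 + t) * nrm g.1 := by nlinarith [n0 g.1]
    calc nrm (p * g * q).1 ≤ nrm (p.1 * g.1) + nrm (p.1 * g.1 * (q.1 - 1)) := by
          rw [e1]
          exact nadd _ _
      _ ≤ nrm (p.1 * g.1) + nrm (p.1 * g.1) * nrm (q.1 - 1) := by
          linarith [nmul (p.1 * g.1) (q.1 - 1)]
      _ ≤ (1 + t) * nrm (p.1 * g.1) := by nlinarith [n0 (p.1 * g.1)]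
      _ ≤ (1 + t) * ((1 + t) * nrm g.1) := mul_le_mul_of_nonneg_left h1 (by linarith)
      _ = (1 + t) ^ 2 * nrm g.1 := by ring
  refine ⟨?_, ?_, ?_, ?_, ?_, ?_⟩
  · intro θ
    unfold rowN
    fun_prop
  · intro θ
    unfold colN
    fun_prop
  · intro θ A
    refine ⟨rc_rownrm θ A, rc_colnrm θ A, ?_, ?_⟩
    · unfold rowN
      congr 1
      simp only [Matrix.neg_apply]
      ring
    · unfold colN
      congr 1
      simp only [Matrix.neg_apply]
      ring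
  · intro t θ p g q ht hp hq
    have hp' : nrm (p.1 - 1) < t := hp
    have hq' : nrm (q.1 - 1) < t := hq
    have r0 : ∀ A : M2, 0 ≤ rowN θ A := fun A => Real.sqrt_nonneg _
    have c0 : ∀ A : M2, 0 ≤ colN θ A := fun A => Real.sqrt_nonneg _
    refine ⟨?_, ?_, ?_, key t p g q ht hp hq⟩
    · have e1 : (p * g * q).1 = p.1 * g.1 + p.1 * g.1 * (q.1 - 1) := by
        change p.1 * g.1 * q.1 = _
        rw [mul_sub, mul_one]
        abel
      have e2 : p.1 * g.1 = g.1 + (p.1 - 1) * g.1 := by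
        rw [sub_mul, one_mul]
        abel
      have h1 : rowN θ (p.1 * g.1) ≤ rowN θ g.1 + t * nrm g.1 := by
        calc rowN θ (p.1 * g.1) = rowN θ (g.1 + (p.1 - 1) * g.1) := by rw [← e2]
          _ ≤ rowN θ g.1 + rowN θ ((p.1 - 1) * g.1) := rc_rowadd _ _ _
          _ ≤ rowN θ g.1 + nrm (p.1 - 1) * nrm g.1 := by
            linarith [nmul (p.1 - 1) g.1, rc_rownrm θ ((p.1 - 1) * g.1)]
          _ ≤ rowN θ g.1 + t * nrm g.1 := by nlinarith [n0 g.1]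
      calc rowN θ (p * g * q).1 ≤ rowN θ (p.1 * g.1) + rowN θ (p.1 * g.1 * (q.1 - 1)) := by
            rw [e1]
            exact rc_rowadd _ _ _
        _ ≤ rowN θ (p.1 * g.1) + rowN θ (p.1 * g.1) * nrm (q.1 - 1) := by
            linarith [rc_rowmul θ (p.1 * g.1) (q.1 - 1)]
        _ ≤ (1 + t) * rowN θ (p.1 * g.1) := by nlinarith [r0 (p.1 * g.1)]
        _ ≤ (1 + t) * (rowN θ g.1 + t * nrm g.1) :=
            mul_le_mul_of_nonneg_left h1 (by linarith)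
    · have e1 : (p * g * q).1 = g.1 * q.1 + (p.1 - 1) * (g.1 * q.1) := by
        change p.1 * g.1 * q.1 = _
        rw [sub_mul, one_mul, mul_assoc]
        abel
      have e2 : g.1 * q.1 = g.1 + g.1 * (q.1 - 1) := by
        rw [mul_sub, mul_one]
        abel
      have h1 : colN θ (g.1 * q.1) ≤ colN θ g.1 + t * nrm g.1 := by
        calc colN θ (g.1 * q.1) = colN θ (g.1 + g.1 * (q.1 - 1)) := by rw [← e2]
          _ ≤ colN θ g.1 + colN θ (g.1 * (q.1 - 1)) := rc_coladd _ _ _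
          _ ≤ colN θ g.1 + nrm g.1 * nrm (q.1 - 1) := by
            linarith [nmul g.1 (q.1 - 1), rc_colnrm θ (g.1 * (q.1 - 1))]
          _ ≤ colN θ g.1 + t * nrm g.1 := by nlinarith [n0 g.1]
      calc colN θ (p * g * q).1 ≤ colN θ (g.1 * q.1) + colN θ ((p.1 - 1) * (g.1 * q.1)) := by
            rw [e1]
            exact rc_coladd _ _ _
        _ ≤ colN θ (g.1 * q.1) + nrm (p.1 - 1) * colN θ (g.1 * q.1) := by
            linarith [rc_colmul θ (p.1 - 1) (g.1 * q.1)]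
        _ ≤ (1 + t) * colN θ (g.1 * q.1) := by nlinarith [c0 (g.1 * q.1)]
        _ ≤ (1 + t) * (colN θ g.1 + t * nrm g.1) :=
            mul_le_mul_of_nonneg_left h1 (by linarith)
    · have h1 := key t p⁻¹ (p * g * q) q⁻¹ ht ((binv t p).2 hp) ((binv t q).2 hq)
      have h2 : p⁻¹ * (p * g * q) * q⁻¹ = g := by group
      rwa [h2] at h1
  · intro p g
    refine ⟨hmul p g, ?_, ?_⟩
    · have h1 := hmul p⁻¹ (p * g)
      rwa [inv_mul_cancel_left, ninv2] at h1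
    · have h1 := hmul (p * g) g⁻¹
      rw [mul_inv_cancel_right, ninv2] at h1
      linarith [mul_comm (nrm g.1) (nrm (p * g).1)]
  · intro g g'
    have h1 := rc_trace g.1 (g'⁻¹).1
    rw [ninv2] at h1
    refine le_trans (le_of_eq ?_) h1
    congr 1
    change (g.1 * (g'⁻¹).1) 0 0 + (g.1 * (g'⁻¹).1) 1 1 = _
    rw [Matrix.mul_apply, Matrix.mul_apply, Fin.sum_univ_two, Fin.sum_univ_two]

end Pool.Agent.MPEF
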