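import Pool.Agent.Lib.MP_ef3f0f_gt.W.Spec

set_option autoImplicit false

/-!
# MP_ef3f0f_gt, W: lower bound for traces
-/

namespace Pool.Agent.MPEF

open scoped Pointwise

private theorem trlow_sin (n m k w e δ : ℝ) (hn : 0 < n) (h1 : m ≤ |k|) (h2 : |k| ≤ n - m)
    (hw : |w - Real.pi * k / n| ≤ e) (hδ : δ ≤ Real.pi * m / n - e) (hδ0 : 0 ≤ δ) :
    Real.sin δ ≤ |Real.sin w| := by
  have hπ := Real.pi_pos
  have e1 : |Real.pi * k / n| = Real.pi * |k| / n := by
    rw [abs_div, abs_mul, abs_of_pos hπ, abs_of_pos hn]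
  have l1 : δ ≤ |w| := by
    have h3 : |Real.pi * k / n| ≤ |w| + |w - Real.pi * k / n| := by
      have h4 := abs_sub_abs_le_abs_sub (Real.pi * k / n) w
      rw [abs_sub_comm] at h4
      linarith
    have h5 : Real.pi * m / n ≤ Real.pi * |k| / n := by gcongr
    rw [e1] at h3
    linarith
  have l2 : |w| ≤ Real.pi - δ := by
    have h3 : |w| ≤ |Real.pi * k / n| + |w - Real.pi * k / n| := by
      have h4 := abs_sub_abs_le_abs_sub w (Real.pi * k / n)
      linarith
    have h5 : Real.pi * |k| / n ≤ Real.pi * (n - m) / n := by gcongr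
    have h6 : Real.pi * (n - m) / n = Real.pi - Real.pi * m / n := by
      field_simp
    rw [e1] at h3
    linarith
  have h7 : |Real.sin w| = Real.sin |w| := by
    rcases le_total 0 w with h | h
    · rw [abs_of_nonneg h] at l2 ⊢
      exact abs_of_nonneg (Real.sin_nonneg_of_nonneg_of_le_pi h (by linarith))
    · rw [abs_of_nonpos h] at l2 ⊢
      rw [Real.sin_neg]
      refine abs_of_nonpos ?_
      have := Real.sin_nonneg_of_nonneg_of_le_pi (x := -w) (by linarith) (by linarith)
      rw [Real.sin_neg] at this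
      linarith
  rw [h7]
  rcases le_total |w| (Real.pi / 2) with h | h
  · exact Real.sin_le_sin_of_le_of_le_pi_div_two (by linarith) h l1
  · rw [← Real.sin_pi_sub |w|]
    exact Real.sin_le_sin_of_le_of_le_pi_div_two (by linarith) (by linarith) (by linarith)

private theorem trlow_far : ∀ a b : Fin 16, farF a b →
    (a.val + 2 ≤ b.val ∨ b.val + 2 ≤ a.val) ∧ a.val ≤ b.val + 14 ∧ b.val ≤ a.val + 14 := by
  decide

private theorem trlow_tr (g g' : SL2) : tr2 (g * g'⁻¹) =
    g.1 0 0 * g'.1 1 1 - g.1 0 1 * g'.1 1 0 - g.1 1 0 * g'.1 0 1 + g.1 1 1 * g'.1 0 0 := by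
  rw [tr2, Matrix.SpecialLinearGroup.coe_mul, Matrix.SpecialLinearGroup.coe_inv,
    Matrix.adjugate_fin_two]
  simp [Matrix.mul_apply, Fin.sum_univ_two]
  ring

private theorem trlow_abs (g g' h h' : SL2) (e1 : g.1 = h.1 ∨ g.1 = -h.1)
    (e2 : g'.1 = h'.1 ∨ g'.1 = -h'.1) : |tr2 (g * g'⁻¹)| = |tr2 (h * h'⁻¹)| := by
  rw [trlow_tr, trlow_tr]
  rcases e1 with e1 | e1 <;> rcases e2 with e2 | e2 <;> rw [e1, e2]
  · rw [← abs_neg]
    congr 1
    simp only [Matrix.neg_apply]
    ring
  · rw [← abs_neg]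
    congr 1
    simp only [Matrix.neg_apply]
    ring
  · congr 1
    simp only [Matrix.neg_apply]
    ring

private theorem trlow_nrm (g h : SL2) (e : g.1 = h.1 ∨ g.1 = -h.1) : nrm g.1 = nrm h.1 := by
  rcases e with e | e
  · rw [e]
  · rw [e, nrm, nrm]
    simp only [Matrix.neg_apply, neg_sq]

private theorem trlow_exp {x : ℝ} (hx : 18 ≤ x) : Real.exp (-x) ≤ 1 / 200000 := by
  rw [Real.exp_neg, ← one_div]
  refine one_div_le_one_div_of_le (by norm_num) ?_
  have h1 : (2 : ℝ) ≤ Real.exp 1 := by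
    have := Real.add_one_le_exp (1 : ℝ)
    linarith
  calc (200000 : ℝ) ≤ 2 ^ 18 := by norm_num
    _ ≤ Real.exp 1 ^ 18 := pow_le_pow_left₀ (by norm_num) h1 18
    _ = Real.exp 18 := by rw [← Real.exp_nat_mul]; norm_num
    _ ≤ Real.exp x := Real.exp_le_exp.2 hx

/-- The real inequality. -/
private theorem trlow_real {x y p q : ℝ} (hx : 9 ≤ x) (hy : 9 ≤ y) (hp : |p| ≤ 1)
    (hq : 117 / 10000 ≤ |q|) :
    1169 / 100000 * Real.exp (x + y) ≤ |2 * Real.cosh (x - y) * p + 2 * Real.cosh (x + y) * q| := by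
  have h1 : |2 * Real.cosh (x + y) * q| - |2 * Real.cosh (x - y) * p| ≤
      |2 * Real.cosh (x - y) * p + 2 * Real.cosh (x + y) * q| := by
    have h2 := abs_sub_abs_le_abs_sub (2 * Real.cosh (x + y) * q) (-(2 * Real.cosh (x - y) * p))
    rw [abs_neg, sub_neg_eq_add, add_comm (2 * Real.cosh (x + y) * q)] at h2
    exact h2
  have hE : 0 < Real.exp (x + y) := Real.exp_pos _
  have h3 : 117 / 10000 * Real.exp (x + y) ≤ |2 * Real.cosh (x + y) * q| := by
    have h4 : Real.exp (x + y) ≤ 2 * Real.cosh (x + y) := by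
      rw [Real.cosh_eq]
      have := Real.exp_pos (-(x + y))
      linarith
    rw [abs_mul, abs_of_pos (lt_of_lt_of_le hE h4)]
    calc 117 / 10000 * Real.exp (x + y) = Real.exp (x + y) * (117 / 10000) := by ring
      _ ≤ 2 * Real.cosh (x + y) * |q| := mul_le_mul h4 hq (by norm_num) (hE.le.trans h4)
  have h5 : |2 * Real.cosh (x - y) * p| ≤ 1 / 100000 * Real.exp (x + y) := by
    have h6 : 0 < 2 * Real.cosh (x - y) := by
      have := Real.cosh_pos (x - y)
      linarith
    have h7 : 2 * Real.cosh (x - y) ≤ 1 / 100000 * Real.exp (x + y) := by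
      have h8 : Real.exp (x - y) = Real.exp (-(2 * y)) * Real.exp (x + y) := by
        rw [← Real.exp_add]
        congr 1
        ring
      have h9 : Real.exp (-(x - y)) = Real.exp (-(2 * x)) * Real.exp (x + y) := by
        rw [← Real.exp_add]
        congr 1
        ring
      have h10 : Real.exp (-(2 * y)) ≤ 1 / 200000 := trlow_exp (by linarith)
      have h11 : Real.exp (-(2 * x)) ≤ 1 / 200000 := trlow_exp (by linarith)
      rw [Real.cosh_eq, h8, h9]
      have h12 := mul_le_mul_of_nonneg_right h10 hE.le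
      have h13 := mul_le_mul_of_nonneg_right h11 hE.le
      linarith
    rw [abs_mul, abs_of_pos h6]
    calc 2 * Real.cosh (x - y) * |p| ≤ 2 * Real.cosh (x - y) * 1 :=
          mul_le_mul_of_nonneg_left hp h6.le
      _ ≤ _ := by rw [mul_one]; exact h7
  linarith

theorem ttrlow : S_nrm → S_gm → S_ang → S_trlow := by
  intro hnrm hgm hang M a b hab g hg g' hg'
  obtain ⟨s, t, x, hx, hs, ht, e⟩ := hang M a g hg
  obtain ⟨s', t', x', hx', hs', ht', e'⟩ := hang M b g' hg'
  rw [trlow_abs g g' (gm s t x) (gm s' t' x') e e', trlow_nrm _ _ e, trlow_nrm _ _ e',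
    hgm.2.2.2.1, mul_comm (Real.cos (s - s')), mul_comm (Real.sin (s - s'))]
  have n1 : ∀ s t x : ℝ, 9 ≤ x → nrm (gm s t x).1 ≤ 101 / 100 * Real.exp x := by
    intro s t x hx
    have hE := Real.exp_pos x
    refine (pow_le_pow_iff_left₀ (hnrm.1 _) (by positivity) two_ne_zero).1 ?_
    have h1 : Real.exp (-(2 * x)) ≤ 1 / 200000 := trlow_exp (by linarith)
    have h2 : Real.exp (2 * x) = Real.exp x ^ 2 := by
      rw [← Real.exp_nat_mul]
      norm_num
    have h3 : 1 ≤ Real.exp (2 * x) := Real.one_le_exp (by linarith)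
    rw [hgm.1, mul_pow, ← h2]
    linarith
  have h1 := n1 s t x hx
  have h2 := n1 s' t' x' hx'
  have hE := Real.exp_pos x
  have hE' := Real.exp_pos x'
  have h3 : nrm (gm s t x).1 * nrm (gm s' t' x').1 ≤
      10201 / 10000 * Real.exp (x + x') := by
    calc nrm (gm s t x).1 * nrm (gm s' t' x').1
        ≤ (101 / 100 * Real.exp x) * (101 / 100 * Real.exp x') :=
          mul_le_mul h1 h2 (hnrm.1 _) (by positivity)
      _ = 10201 / 10000 * Real.exp (x + x') := by rw [Real.exp_add]; ring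
  have hπ := Real.pi_gt_d4
  have k1 : 3 / 10 ≤ |Real.sin (s - s')| := by
    have h4 : Real.sin (312 / 1000) ≤ |Real.sin (s - s')| := by
      refine trlow_sin 5 1 ((a.1.val : ℝ) - (b.1.val : ℝ)) (s - s') (316 / 1000) (312 / 1000)
        (by norm_num) ?_ ?_ ?_ (by linarith) (by norm_num)
      · have h5 : a.1.val ≠ b.1.val := fun h => hab.1 (Fin.ext h)
        rcases lt_or_gt_of_ne h5 with h6 | h6
        · have h7 : (a.1.val : ℝ) + 1 ≤ b.1.val := by exact_mod_cast h6
          rw [abs_sub_comm, abs_of_nonneg (by linarith)]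
          linarith
        · have h7 : (b.1.val : ℝ) + 1 ≤ a.1.val := by exact_mod_cast h6
          rw [abs_of_nonneg (by linarith)]
          linarith
      · have h5 : (a.1.val : ℝ) ≤ 4 := by exact_mod_cast Nat.le_of_lt_succ a.1.2
        have h6 : (b.1.val : ℝ) ≤ 4 := by exact_mod_cast Nat.le_of_lt_succ b.1.2
        have h7 : (0 : ℝ) ≤ a.1.val := Nat.cast_nonneg _
        have h8 : (0 : ℝ) ≤ b.1.val := Nat.cast_nonneg _
        rw [abs_le]
        constructor <;> linarith
      · rw [aα] at hs hs'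
        have h5 : s - s' - Real.pi * ((a.1.val : ℝ) - (b.1.val : ℝ)) / 5 =
            (s - Real.pi * (a.1.val : ℝ) / 5) - (s' - Real.pi * (b.1.val : ℝ) / 5) := by ring
        rw [h5]
        rw [abs_le] at hs hs' ⊢
        constructor <;> linarith [hs.1, hs.2, hs'.1, hs'.2]
    have h5 := Real.sin_gt_sub_cube (x := 312 / 1000) (by norm_num)
    norm_num at h5
    norm_num at h4
    linarith
  have k2 : 39 / 1000 ≤ |Real.sin (t - t')| := by
    have h4 : Real.sin (396 / 10000) ≤ |Real.sin (t - t')| := by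
      obtain ⟨f1, f2, f3⟩ := trlow_far a.2 b.2 hab.2
      refine trlow_sin 16 2 ((a.2.val : ℝ) - (b.2.val : ℝ)) (t - t') (353 / 1000) (396 / 10000)
        (by norm_num) ?_ ?_ ?_ (by linarith) (by norm_num)
      · rcases f1 with h6 | h6
        · have h7 : (a.2.val : ℝ) + 2 ≤ b.2.val := by exact_mod_cast h6
          rw [abs_sub_comm, abs_of_nonneg (by linarith)]
          linarith
        · have h7 : (b.2.val : ℝ) + 2 ≤ a.2.val := by exact_mod_cast h6
          rw [abs_of_nonneg (by linarith)]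
          linarith
      · have h5 : (a.2.val : ℝ) ≤ b.2.val + 14 := by exact_mod_cast f2
        have h6 : (b.2.val : ℝ) ≤ a.2.val + 14 := by exact_mod_cast f3
        rw [abs_le]
        constructor <;> linarith
      · rw [aβ] at ht ht'
        have h5 : t - t' - Real.pi * ((a.2.val : ℝ) - (b.2.val : ℝ)) / 16 =
            (t - Real.pi * (a.2.val : ℝ) / 16) - (t' - Real.pi * (b.2.val : ℝ) / 16) := by ring
        rw [h5]
        rw [abs_le] at ht ht' ⊢
        constructor <;> linarith [ht.1, ht.2, ht'.1, ht'.2]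
    have h5 := Real.sin_gt_sub_cube (x := 396 / 10000) (by norm_num)
    norm_num at h5
    norm_num at h4
    linarith
  have key := trlow_real (p := Real.cos (t - t') * Real.cos (s - s'))
    (q := Real.sin (t - t') * Real.sin (s - s')) hx hx' (by
      rw [abs_mul]
      exact mul_le_one₀ (Real.abs_cos_le_one _) (abs_nonneg _) (Real.abs_cos_le_one _)) (by
      rw [abs_mul]
      calc (117 / 10000 : ℝ) = 39 / 1000 * (3 / 10) := by norm_num
        _ ≤ |Real.sin (t - t')| * |Real.sin (s - s')| :=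
          mul_le_mul k2 k1 (by norm_num) (abs_nonneg _))
  have hE2 := Real.exp_pos (x + x')
  linarith

end Pool.Agent.MPEF
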