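import Pool.Agent.Lib.MP_ef3f0f_gt.W.Spec

set_option autoImplicit false

namespace Pool.Agent.MPEF

open scoped Pointwise

private noncomputable def wdv (P : SL2) : V2 :=
  ![Real.sqrt 2 / 2 * (P.1 0 0 + P.1 1 0), Real.sqrt 2 / 2 * (P.1 0 1 + P.1 1 1)]

private theorem wd_cc : Real.sqrt 2 / 2 * (Real.sqrt 2 / 2) = 1 / 2 := by
  have h : Real.sqrt 2 * Real.sqrt 2 = 2 := Real.mul_self_sqrt (by norm_num)
  nlinarith

private theorem wd_det (P : SL2) : P.1 0 0 * P.1 1 1 - P.1 0 1 * P.1 1 0 = 1 := by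
  have := P.2
  rwa [Matrix.det_fin_two] at this

private noncomputable def wdg (X : ℝ) (hX : 0 < X) : SL2 :=
  ⟨!![Real.sqrt 2 / 2 * X, Real.sqrt 2 / 2 * X; -(Real.sqrt 2 / 2 * X⁻¹),
    Real.sqrt 2 / 2 * X⁻¹], by
    rw [Matrix.det_fin_two_of]
    have h1 := wd_cc
    have h2 : X * X⁻¹ = 1 := mul_inv_cancel₀ hX.ne'
    linear_combination (2 * (X * X⁻¹)) * h1 + h2⟩

private theorem wd_v0 (P : SL2) : wdv P 0 = Real.sqrt 2 / 2 * (P.1 0 0 + P.1 1 0) := rfl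

private theorem wd_v1 (P : SL2) : wdv P 1 = Real.sqrt 2 / 2 * (P.1 0 1 + P.1 1 1) := rfl

private theorem wd_mulent (A B : SL2) (i j : Fin 2) :
    (A * B).1 i j = A.1 i 0 * B.1 0 j + A.1 i 1 * B.1 1 j := by
  rw [Matrix.SpecialLinearGroup.coe_mul, Matrix.mul_apply, Fin.sum_univ_two]

private theorem wd_ent (X : ℝ) (hX : 0 < X) (P : SL2) :
    (wdg X hX * P).1 0 0 = X * wdv P 0 ∧ (wdg X hX * P).1 0 1 = X * wdv P 1 ∧
    (wdg X hX * P).1 1 0 = X⁻¹ * (Real.sqrt 2 / 2 * (P.1 1 0 - P.1 0 0)) ∧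
    (wdg X hX * P).1 1 1 = X⁻¹ * (Real.sqrt 2 / 2 * (P.1 1 1 - P.1 0 1)) := by
  have e00 : (wdg X hX).1 0 0 = Real.sqrt 2 / 2 * X := rfl
  have e01 : (wdg X hX).1 0 1 = Real.sqrt 2 / 2 * X := rfl
  have e10 : (wdg X hX).1 1 0 = -(Real.sqrt 2 / 2 * X⁻¹) := rfl
  have e11 : (wdg X hX).1 1 1 = Real.sqrt 2 / 2 * X⁻¹ := rfl
  refine ⟨?_, ?_, ?_, ?_⟩
  · rw [wd_mulent, e00, e01, wd_v0]; ring
  · rw [wd_mulent, e00, e01, wd_v1]; ring
  · rw [wd_mulent, e10, e11]; ring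
  · rw [wd_mulent, e10, e11]; ring

private theorem wd_real (X K M v0 v1 u0 u1 s c : ℝ) (hK : 1 ≤ K) (hX : 10 ^ 5 * K ≤ X)
    (hM : X ^ 2 ≤ M) (hs : s ^ 2 + c ^ 2 = 1) (hd : v0 * u1 - v1 * u0 = 1)
    (hn : v0 ^ 2 + v1 ^ 2 + u0 ^ 2 + u1 ^ 2 ≤ K ^ 2)
    (hj : |-s * v0 + c * v1| ≤ 982 / 10000 * Real.sqrt (v0 ^ 2 + v1 ^ 2)) :
    Real.sqrt ((X⁻¹ * u0) ^ 2 + (X⁻¹ * u1) ^ 2) <
      149 / 1000 * Real.sqrt ((X * v0) ^ 2 + (X * v1) ^ 2 + (X⁻¹ * u0) ^ 2 + (X⁻¹ * u1) ^ 2) ∧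
    Real.sqrt ((-s * (X * v0) + c * (X * v1)) ^ 2 + (-s * (X⁻¹ * u0) + c * (X⁻¹ * u1)) ^ 2) <
      168 / 1000 * Real.sqrt ((X * v0) ^ 2 + (X * v1) ^ 2 + (X⁻¹ * u0) ^ 2 + (X⁻¹ * u1) ^ 2) ∧
    10 ^ 4 * (1007 / 1000) <
      Real.sqrt ((X * v0) ^ 2 + (X * v1) ^ 2 + (X⁻¹ * u0) ^ 2 + (X⁻¹ * u1) ^ 2) ∧
    Real.sqrt ((X * v0) ^ 2 + (X * v1) ^ 2 + (X⁻¹ * u0) ^ 2 + (X⁻¹ * u1) ^ 2) * (1007 / 1000) <
      M := by
  have hX5 : (10 : ℝ) ^ 5 ≤ X := by nlinarith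
  have hX0 : 0 < X := by linarith [show (0 : ℝ) < 10 ^ 5 by norm_num]
  obtain ⟨n, hndef⟩ : ∃ n, n = Real.sqrt (v0 ^ 2 + v1 ^ 2) := ⟨_, rfl⟩
  obtain ⟨q, hqdef⟩ : ∃ q, q = Real.sqrt (u0 ^ 2 + u1 ^ 2) := ⟨_, rfl⟩
  have hn0 : 0 ≤ n := by rw [hndef]; exact Real.sqrt_nonneg _
  have hq0 : 0 ≤ q := by rw [hqdef]; exact Real.sqrt_nonneg _
  have hn2 : n ^ 2 = v0 ^ 2 + v1 ^ 2 := by rw [hndef]; exact Real.sq_sqrt (by positivity)
  have hq2 : q ^ 2 = u0 ^ 2 + u1 ^ 2 := by rw [hqdef]; exact Real.sq_sqrt (by positivity)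
  have hnK : n ≤ K := by
    apply le_of_sq_le_sq _ (by linarith)
    nlinarith [sq_nonneg u0, sq_nonneg u1]
  have hqK : q ≤ K := by
    apply le_of_sq_le_sq _ (by linarith)
    nlinarith [sq_nonneg v0, sq_nonneg v1]
  have hnq : 1 ≤ n * q := by
    apply le_of_sq_le_sq _ (by positivity)
    have : (n * q) ^ 2 - 1 ^ 2 = (v0 * u0 + v1 * u1) ^ 2 := by
      have : (1 : ℝ) ^ 2 = (v0 * u1 - v1 * u0) ^ 2 := by rw [hd]
      rw [this, mul_pow, hn2, hq2]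
      ring
    nlinarith [sq_nonneg (v0 * u0 + v1 * u1)]
  have hnK1 : 1 ≤ n * K := le_trans hnq (mul_le_mul_of_nonneg_left hqK hn0)
  obtain ⟨Y, hY⟩ : ∃ Y, Y = X⁻¹ := ⟨_, rfl⟩
  have hXY : X * Y = 1 := by rw [hY]; exact mul_inv_cancel₀ hX0.ne'
  have hY0 : 0 < Y := by rw [hY]; positivity
  rw [← hY]
  have hYq : Y * q ≤ 1 / 10 ^ 5 := by
    have h1 : Y * q ≤ Y * K := mul_le_mul_of_nonneg_left hqK hY0.le
    have h2 : Y * (10 ^ 5 * K) ≤ Y * X := mul_le_mul_of_nonneg_left hX hY0.le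
    have h3 : Y * X = 1 := by rw [mul_comm]; exact hXY
    rw [h3] at h2
    nlinarith
  have hYq0 : 0 ≤ Y * q := by positivity
  have hXn : 10 ^ 5 ≤ X * n := by
    have h1 : 10 ^ 5 * K * n ≤ X * n := mul_le_mul_of_nonneg_right hX hn0
    nlinarith
  obtain ⟨N, hNdef⟩ : ∃ N, N = Real.sqrt ((X * v0) ^ 2 + (X * v1) ^ 2 + (Y * u0) ^ 2 +
    (Y * u1) ^ 2) := ⟨_, rfl⟩
  have hN0 : 0 ≤ N := by rw [hNdef]; exact Real.sqrt_nonneg _
  have hN2 : N ^ 2 = (X * n) ^ 2 + (Y * q) ^ 2 := by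
    rw [hNdef, Real.sq_sqrt (by positivity), mul_pow X n, mul_pow Y q, hn2, hq2]
    ring
  have hN1 : X * n ≤ N := by
    apply le_of_sq_le_sq _ hN0
    nlinarith [sq_nonneg (Y * q)]
  have hNu : N ≤ X * n + Y * q := by
    apply le_of_sq_le_sq _ (by positivity)
    nlinarith [mul_nonneg (show 0 ≤ X * n by positivity) hYq0]
  rw [← hNdef]
  have hr : Real.sqrt ((Y * u0) ^ 2 + (Y * u1) ^ 2) = Y * q := by
    have : (Y * u0) ^ 2 + (Y * u1) ^ 2 = (Y * q) ^ 2 := by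
      rw [mul_pow Y q, hq2]; ring
    rw [this, Real.sqrt_sq hYq0]
  refine ⟨?_, ?_, ?_, ?_⟩
  · rw [hr]
    norm_num at hXn hYq ⊢
    linarith
  · obtain ⟨a, ha⟩ : ∃ a, a = -s * v0 + c * v1 := ⟨_, rfl⟩
    rw [← ha, ← hndef] at hj
    have h1 : -s * (X * v0) + c * (X * v1) = X * a := by rw [ha]; ring
    have h2 : (-s * (Y * u0) + c * (Y * u1)) ^ 2 ≤ (Y * q) ^ 2 := by
      have h3 : (Y * q) ^ 2 - (-s * (Y * u0) + c * (Y * u1)) ^ 2 =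
          Y ^ 2 * (c * u0 + s * u1) ^ 2 := by
        rw [mul_pow Y q, hq2]
        have h4 : c ^ 2 = 1 - s ^ 2 := by linarith
        have h5 : s ^ 2 = 1 - c ^ 2 := by linarith
        linear_combination (-(Y ^ 2 * u0 ^ 2) - Y ^ 2 * u1 ^ 2) * hs
      have h6 : 0 ≤ Y ^ 2 * (c * u0 + s * u1) ^ 2 := by positivity
      linarith
    have h7 : (X * a) ^ 2 ≤ (982 / 10000 * (X * n)) ^ 2 := by
      have h8 : |X * a| ≤ 982 / 10000 * (X * n) := by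
        rw [abs_mul, abs_of_pos hX0]
        have := mul_le_mul_of_nonneg_left hj hX0.le
        linarith
      have h9 : |X * a| ^ 2 ≤ (982 / 10000 * (X * n)) ^ 2 :=
        pow_le_pow_left₀ (abs_nonneg _) h8 2
      rwa [sq_abs] at h9
    have h10 : Real.sqrt ((-s * (X * v0) + c * (X * v1)) ^ 2 +
        (-s * (Y * u0) + c * (Y * u1)) ^ 2) ≤ 982 / 10000 * (X * n) + Y * q := by
      apply Real.sqrt_le_iff.mpr
      refine ⟨by positivity, ?_⟩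
      rw [h1]
      have h11 : 0 ≤ (982 / 10000 * (X * n)) * (Y * q) := by positivity
      nlinarith
    norm_num at hXn hYq h10 ⊢
    linarith
  · norm_num at hXn ⊢
    linarith
  · have h1 : X * n ≤ X * K := mul_le_mul_of_nonneg_left hnK hX0.le
    have h2 : X * (10 ^ 5 * K) ≤ X * X := mul_le_mul_of_nonneg_left hX hX0.le
    have h3 : (10 : ℝ) ^ 5 * 10 ^ 5 ≤ X * X := mul_le_mul hX5 hX5 (by norm_num) hX0.le
    norm_num at hXn hYq h2 h3 ⊢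
    nlinarith

private theorem wd_real2 (v0 v1 a b c d e : ℝ) (he0 : 0 ≤ e) (he : e ≤ 2 / 10 ^ 5)
    (hE : a ^ 2 + b ^ 2 + c ^ 2 + d ^ 2 = e ^ 2) :
    |v0 * (v0 * b + v1 * (1 + d)) - v1 * (v0 * (1 + a) + v1 * c)| ≤
      3 / 10 ^ 5 * (Real.sqrt (v0 ^ 2 + v1 ^ 2) *
        Real.sqrt ((v0 * (1 + a) + v1 * c) ^ 2 + (v0 * b + v1 * (1 + d)) ^ 2)) := by
  obtain ⟨w0, hw0⟩ : ∃ w, w = v0 * a + v1 * c := ⟨_, rfl⟩
  obtain ⟨w1, hw1⟩ : ∃ w, w = v0 * b + v1 * d := ⟨_, rfl⟩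
  have f0 : v0 * (1 + a) + v1 * c = v0 + w0 := by rw [hw0]; ring
  have f1 : v0 * b + v1 * (1 + d) = v1 + w1 := by rw [hw1]; ring
  rw [f0, f1]
  obtain ⟨n, hndef⟩ : ∃ n, n = Real.sqrt (v0 ^ 2 + v1 ^ 2) := ⟨_, rfl⟩
  obtain ⟨m, hmdef⟩ : ∃ n, n = Real.sqrt (w0 ^ 2 + w1 ^ 2) := ⟨_, rfl⟩
  obtain ⟨n', hn'def⟩ : ∃ n, n = Real.sqrt ((v0 + w0) ^ 2 + (v1 + w1) ^ 2) := ⟨_, rfl⟩
  rw [← hndef, ← hn'def]
  have hn0 : 0 ≤ n := by rw [hndef]; exact Real.sqrt_nonneg _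
  have hm0 : 0 ≤ m := by rw [hmdef]; exact Real.sqrt_nonneg _
  have hn'0 : 0 ≤ n' := by rw [hn'def]; exact Real.sqrt_nonneg _
  have hn2 : n ^ 2 = v0 ^ 2 + v1 ^ 2 := by rw [hndef]; exact Real.sq_sqrt (by positivity)
  have hm2 : m ^ 2 = w0 ^ 2 + w1 ^ 2 := by rw [hmdef]; exact Real.sq_sqrt (by positivity)
  have hn'2 : n' ^ 2 = (v0 + w0) ^ 2 + (v1 + w1) ^ 2 := by
    rw [hn'def]; exact Real.sq_sqrt (by positivity)
  have hm : m ≤ e * n := by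
    apply le_of_sq_le_sq _ (by positivity)
    rw [mul_pow, hn2, ← hE, hm2, hw0, hw1]
    nlinarith [sq_nonneg (v0 * c - v1 * a), sq_nonneg (v0 * d - v1 * b)]
  have hmn : m ≤ n := by
    have : e ≤ 1 := by linarith [show (2 : ℝ) / 10 ^ 5 ≤ 1 by norm_num]
    nlinarith
  have hcs : |v0 * w0 + v1 * w1| ≤ n * m := by
    apply abs_le_of_sq_le_sq _ (by positivity)
    rw [mul_pow, hn2, hm2]
    nlinarith [sq_nonneg (v0 * w1 - v1 * w0)]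
  have hcd : |v0 * w1 - v1 * w0| ≤ n * m := by
    apply abs_le_of_sq_le_sq _ (by positivity)
    rw [mul_pow, hn2, hm2]
    nlinarith [sq_nonneg (v0 * w0 + v1 * w1)]
  have hn' : n - m ≤ n' := by
    apply le_of_sq_le_sq _ hn'0
    have := (abs_le.mp hcs).1
    nlinarith
  have hf : v0 * (v1 + w1) - v1 * (v0 + w0) = v0 * w1 - v1 * w0 := by ring
  rw [hf]
  refine hcd.trans ?_
  have h1 : m ≤ 3 / 10 ^ 5 * n' := by
    have h2 : e * n ≤ 2 / 10 ^ 5 * n := mul_le_mul_of_nonneg_right he hn0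
    norm_num at h2 ⊢
    linarith
  calc n * m ≤ n * (3 / 10 ^ 5 * n') := mul_le_mul_of_nonneg_left h1 hn0
    _ = 3 / 10 ^ 5 * (n * n') := by ring

private theorem wd_ne (P : SL2) : wdv P ≠ 0 := by
  intro h
  have h0 : wdv P 0 = 0 := by rw [h]; rfl
  have h1 : wdv P 1 = 0 := by rw [h]; rfl
  rw [wd_v0] at h0
  rw [wd_v1] at h1
  have hs : Real.sqrt 2 / 2 ≠ 0 := by positivity
  have h0' := (mul_eq_zero.mp h0).resolve_left hs
  have h1' := (mul_eq_zero.mp h1).resolve_left hs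
  have hd := wd_det P
  have e0 : P.1 0 0 = - P.1 1 0 := by linarith
  have e1 : P.1 0 1 = - P.1 1 1 := by linarith
  rw [e0, e1] at hd
  nlinarith

/-- Words. -/
theorem twd : S_nrm → S_balls → S_cover → S_wd := by
  intro hnrm hballs hcov L hL
  obtain ⟨n0, -, -, -, -, -, -, -, n2, -⟩ := hnrm
  have hr7 : rB 7 ≤ 2 / 10 ^ 5 := hballs.2.2.2.2.2.2.2.2
  obtain ⟨c1, c2⟩ := hcov
  choose F hF using c1
  classical
  -- the indices
  obtain ⟨J, hJ1, hJ⟩ : ∃ J : SL2 → Fin 16, J 1 = 4 ∧ ∀ P,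
      |-Real.sin (aβ (J P)) * wdv P 0 + Real.cos (aβ (J P)) * wdv P 1| ≤
        982 / 10000 * Real.sqrt (wdv P 0 ^ 2 + wdv P 1 ^ 2) := by
    refine ⟨fun P => if P = 1 then 4 else F (wdv P), by simp, fun P => ?_⟩
    by_cases h : P = 1
    · simp only [h, if_true]
      have ha : aβ 4 = Real.pi / 4 := by
        unfold aβ
        have : ((4 : Fin 16).val : ℝ) = 4 := by norm_num
        rw [this]
        ring
      have h1 : wdv 1 0 = Real.sqrt 2 / 2 := by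
        rw [wd_v0]; simp
      have h2 : wdv 1 1 = Real.sqrt 2 / 2 := by
        rw [wd_v1]; simp
      rw [ha, Real.sin_pi_div_four, Real.cos_pi_div_four, h1, h2]
      have h3 : -(Real.sqrt 2 / 2) * (Real.sqrt 2 / 2) + Real.sqrt 2 / 2 * (Real.sqrt 2 / 2) = 0 := by
        ring
      rw [h3, abs_zero]
      positivity
    · simp only [h, if_false]
      exact hF (wdv P)
  -- the bound
  obtain ⟨K, hK1, hK⟩ : ∃ K : ℝ, 1 ≤ K ∧ ∀ w ∈ L, ∀ i, i ≤ w.length →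
      nrm ((w.take i).prod : SL2).1 ≤ K := by
    refine ⟨1 + ∑ w ∈ L, ∑ i ∈ Finset.range (w.length + 1), nrm ((w.take i).prod : SL2).1, ?_, ?_⟩
    · have : 0 ≤ ∑ w ∈ L, ∑ i ∈ Finset.range (w.length + 1), nrm ((w.take i).prod : SL2).1 :=
        Finset.sum_nonneg fun w _ => Finset.sum_nonneg fun i _ => n0 _
      linarith
    · intro w hw i hi
      have h1 : nrm ((w.take i).prod : SL2).1 ≤
          ∑ i ∈ Finset.range (w.length + 1), nrm ((w.take i).prod : SL2).1 :=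
        Finset.single_le_sum (f := fun i => nrm ((w.take i).prod : SL2).1)
          (fun i _ => n0 _) (Finset.mem_range.mpr (by omega))
      have h2 : ∑ i ∈ Finset.range (w.length + 1), nrm ((w.take i).prod : SL2).1 ≤
          ∑ w ∈ L, ∑ i ∈ Finset.range (w.length + 1), nrm ((w.take i).prod : SL2).1 :=
        Finset.single_le_sum
          (f := fun w : List SL2 => ∑ i ∈ Finset.range (w.length + 1), nrm ((w.take i).prod : SL2).1)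
          (fun w _ => Finset.sum_nonneg fun i _ => n0 _) hw
      linarith
  refine ⟨⌈(10 ^ 5 * K) ^ 2⌉₊, fun M hM => ?_⟩
  have hMR : (10 ^ 5 * K) ^ 2 ≤ (M : ℝ) := le_trans (Nat.le_ceil _) (by exact_mod_cast hM)
  obtain ⟨X, hXdef⟩ : ∃ X, X = Real.sqrt (M : ℝ) := ⟨_, rfl⟩
  have hX : 10 ^ 5 * K ≤ X := by
    rw [hXdef]
    exact Real.le_sqrt_of_sq_le hMR
  have hX0 : 0 < X := by
    have : (0 : ℝ) < 10 ^ 5 * K := by positivity
    linarith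
  have hX2 : X ^ 2 ≤ (M : ℝ) := by
    rw [hXdef, Real.sq_sqrt (by positivity)]
  have hmem : ∀ P : SL2, nrm P.1 ≤ K → wdg X hX0 * P ∈ winS M (0, J P) 7 := by
    intro P hP
    obtain ⟨e00, e01, e10, e11⟩ := wd_ent X hX0 P
    have hcc := wd_cc
    have hdet := wd_det P
    have hnP := n2 P.1
    have hR := wd_real X K M (wdv P 0) (wdv P 1) (Real.sqrt 2 / 2 * (P.1 1 0 - P.1 0 0))
      (Real.sqrt 2 / 2 * (P.1 1 1 - P.1 0 1)) (Real.sin (aβ (J P))) (Real.cos (aβ (J P))) hK1 hX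
      hX2 (Real.sin_sq_add_cos_sq _) (by
        rw [wd_v0, wd_v1]
        linear_combination (2 * (P.1 0 0 * P.1 1 1 - P.1 0 1 * P.1 1 0)) * hcc + hdet) (by
        have h1 : nrm P.1 ^ 2 ≤ K ^ 2 := pow_le_pow_left₀ (n0 _) hP 2
        rw [hnP] at h1
        have h2 : wdv P 0 ^ 2 + wdv P 1 ^ 2 + (Real.sqrt 2 / 2 * (P.1 1 0 - P.1 0 0)) ^ 2 +
            (Real.sqrt 2 / 2 * (P.1 1 1 - P.1 0 1)) ^ 2 =
            P.1 0 0 ^ 2 + P.1 0 1 ^ 2 + P.1 1 0 ^ 2 + P.1 1 1 ^ 2 := by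
          rw [wd_v0, wd_v1]
          linear_combination (2 * (P.1 0 0 ^ 2 + P.1 0 1 ^ 2 + P.1 1 0 ^ 2 + P.1 1 1 ^ 2)) * hcc
        rw [h2]
        exact h1) (hJ P)
    obtain ⟨r1, r2, r3, r4⟩ := hR
    have hα : aα (0, J P) = 0 := by
      unfold aα
      simp
    have hrow : rowN (aα (0, J P)) (wdg X hX0 * P).1 = Real.sqrt ((X⁻¹ * (Real.sqrt 2 / 2 *
        (P.1 1 0 - P.1 0 0))) ^ 2 + (X⁻¹ * (Real.sqrt 2 / 2 * (P.1 1 1 - P.1 0 1))) ^ 2) := by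
      unfold rowN
      rw [hα, Real.sin_zero, Real.cos_zero, e10, e11]
      congr 1
      ring
    have hcol : colN (aβ (J P)) (wdg X hX0 * P).1 = Real.sqrt ((-Real.sin (aβ (J P)) *
        (X * wdv P 0) + Real.cos (aβ (J P)) * (X * wdv P 1)) ^ 2 + (-Real.sin (aβ (J P)) *
        (X⁻¹ * (Real.sqrt 2 / 2 * (P.1 1 0 - P.1 0 0))) + Real.cos (aβ (J P)) *
        (X⁻¹ * (Real.sqrt 2 / 2 * (P.1 1 1 - P.1 0 1)))) ^ 2) := by
      unfold colN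
      rw [e00, e01, e10, e11]
    have hnr : nrm (wdg X hX0 * P).1 = Real.sqrt ((X * wdv P 0) ^ 2 + (X * wdv P 1) ^ 2 +
        (X⁻¹ * (Real.sqrt 2 / 2 * (P.1 1 0 - P.1 0 0))) ^ 2 +
        (X⁻¹ * (Real.sqrt 2 / 2 * (P.1 1 1 - P.1 0 1))) ^ 2) := by
      unfold nrm
      rw [e00, e01, e10, e11]
    rw [← hrow, ← hnr] at r1
    rw [← hcol, ← hnr] at r2
    rw [← hnr] at r3 r4
    refine ⟨?_, ?_, ?_, ?_⟩
    · have : (156 / 1000 - ((7 : ℕ) : ℝ) / 1000 : ℝ) = 149 / 1000 := by norm_num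
      rw [this]
      exact r1
    · have : (175 / 1000 - ((7 : ℕ) : ℝ) / 1000 : ℝ) = 168 / 1000 := by norm_num
      rw [this]
      exact r2
    · have : (1 + ((7 : ℕ) : ℝ) / 1000 : ℝ) = 1007 / 1000 := by norm_num
      rw [this]
      exact r3
    · have : (1 + ((7 : ℕ) : ℝ) / 1000 : ℝ) = 1007 / 1000 := by norm_num
      rw [this]
      exact r4
  refine ⟨wdg X hX0, fun w hw => ⟨fun i => J ((w.take i).prod), ?_, ?_, ?_, ?_⟩⟩
  · simp only [List.take_zero, List.prod_nil]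
    exact hJ1
  · simp only [List.take_length]
    rw [(hL w hw).1]
    exact hJ1
  · intro i hi
    have hp := List.prod_take_succ w i hi
    obtain ⟨g, hg⟩ : ∃ g, g = w[i] := ⟨_, rfl⟩
    have hgB : g ∈ geoSL.B 7 := by
      rw [hg]
      exact (hL w hw).2 _ (List.getElem_mem hi)
    have hgn : nrm (g.1 - 1) < rB 7 := hgB
    obtain ⟨P, hP⟩ : ∃ P : SL2, P = (w.take i).prod := ⟨_, rfl⟩
    obtain ⟨P', hP'⟩ : ∃ P : SL2, P = (w.take (i + 1)).prod := ⟨_, rfl⟩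
    have hPP : P' = P * g := by rw [hP', hp, ← hP, ← hg]
    show J ((w.take (i + 1)).prod) = J ((w.take i).prod) ∨
      J ((w.take (i + 1)).prod) = J ((w.take i).prod) + 1 ∨
      J ((w.take i).prod) = J ((w.take (i + 1)).prod) + 1
    rw [← hP, ← hP']
    refine c2 (wdv P) (wdv P') (J P) (J P') (wd_ne P) (wd_ne P') (hJ P) (hJ P') ?_
    have g00 : g.1 0 0 = 1 + (g.1 - 1) 0 0 := by simp
    have g01 : g.1 0 1 = (g.1 - 1) 0 1 := by simp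
    have g10 : g.1 1 0 = (g.1 - 1) 1 0 := by simp
    have g11 : g.1 1 1 = 1 + (g.1 - 1) 1 1 := by simp
    have v0' : wdv P' 0 = wdv P 0 * (1 + (g.1 - 1) 0 0) + wdv P 1 * (g.1 - 1) 1 0 := by
      rw [← g00, ← g10, wd_v0, wd_v0, wd_v1, hPP, wd_mulent, wd_mulent]
      ring
    have v1' : wdv P' 1 = wdv P 0 * (g.1 - 1) 0 1 + wdv P 1 * (1 + (g.1 - 1) 1 1) := by
      rw [← g01, ← g11, wd_v1, wd_v0, wd_v1, hPP, wd_mulent, wd_mulent]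
      ring
    unfold det2
    rw [v0', v1']
    exact wd_real2 (wdv P 0) (wdv P 1) ((g.1 - 1) 0 0) ((g.1 - 1) 0 1) ((g.1 - 1) 1 0)
      ((g.1 - 1) 1 1) (nrm (g.1 - 1)) (n0 _) (by linarith) (n2 _).symm
  · intro i hi
    exact hmem _ (hK w hw i hi)

end Pool.Agent.MPEF
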