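import Pool.Agent.Lib.MP_ef3f0f_gt.W.Spec

set_option autoImplicit false

/-!
# MP_ef3f0f_gt, windows: topology and perturbation
-/

namespace Pool.Agent.MPEF

open scoped Pointwise

private theorem wtop_num {t c x : ℝ} (ht0 : 0 ≤ t) (ht : t ≤ 1 / 10 ^ 4) (hc0 : 0 ≤ c)
    (hc : c ≤ 175 / 1000) {r n n' r' : ℝ} (hr : r < c * n) (hn : 0 ≤ n)
    (hr' : r' ≤ (1 + t) * (r + t * n)) (hnn : n ≤ (1 + t) ^ 2 * n') (hn' : 0 < n')
    (hx : x = c + 1 / 1000) : r' < x * n' := by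
  have h1 : (1 + t) * (r + t * n) ≤ (1 + t) * ((c + t) * n) := by
    apply mul_le_mul_of_nonneg_left _ (by linarith)
    nlinarith
  have h2 : (1 + t) * ((c + t) * n) ≤ (1 + t) * ((c + t) * ((1 + t) ^ 2 * n')) := by
    apply mul_le_mul_of_nonneg_left _ (by linarith)
    exact mul_le_mul_of_nonneg_left hnn (by linarith)
  have h3 : (1 + t) * ((c + t) * ((1 + t) ^ 2 * n')) = ((1 + t) ^ 3 * (c + t)) * n' := by ring
  have h4 : (1 + t) ^ 3 ≤ (1 + 1 / 10 ^ 4) ^ 3 := pow_le_pow_left₀ (by linarith) (by linarith) 3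
  have h5 : (1 + t) ^ 3 * (c + t) ≤ (1 + 1 / 10 ^ 4) ^ 3 * (c + 1 / 10 ^ 4) :=
    mul_le_mul h4 (by linarith) (by linarith) (by positivity)
  have h6 : (1 + 1 / 10 ^ 4 : ℝ) ^ 3 * (c + 1 / 10 ^ 4) < x := by
    rw [hx]
    norm_num
    nlinarith
  have h7 : ((1 + t) ^ 3 * (c + t)) * n' < x * n' :=
    mul_lt_mul_of_pos_right (lt_of_le_of_lt h5 h6) hn'
  linarith

private theorem wtop_cont : Continuous (fun g : SL2 => g.1) := continuous_subtype_val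

private theorem wtop_open (h1 : S_nrm) (h3 : S_rc) (M : ℕ) (a : Ty) (l : ℕ) :
    IsOpen (winS M a l) := by
  obtain ⟨-, -, -, -, -, -, -, -, -, hcn, -⟩ := h1
  obtain ⟨hr, hc, -⟩ := h3
  have c0 : Continuous (fun g : SL2 => nrm g.1) := hcn.comp wtop_cont
  have c1 : Continuous (fun g : SL2 => rowN (aα a) g.1) := (hr _).comp wtop_cont
  have c2 : Continuous (fun g : SL2 => colN (aβ a.2) g.1) := (hc _).comp wtop_cont
  exact (isOpen_lt c1 (continuous_const.mul c0)).inter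
    ((isOpen_lt c2 (continuous_const.mul c0)).inter
      ((isOpen_lt continuous_const c0).inter (isOpen_lt (c0.mul continuous_const) continuous_const)))

private theorem wtop_cpt (h1 : S_nrm) (h2 : S_Bs) (M : ℕ) (a : Ty) (l : ℕ) :
    IsCompact (closure (winS M a l)) := by
  obtain ⟨hn0, -⟩ := h1
  obtain ⟨-, -, -, -, -, -, -, hcp, -⟩ := h2
  refine (hcp (M : ℝ)).closure_of_subset ?_
  intro g hg
  have h4 := hg.2.2.2
  have h5 := hn0 g.1
  have h6 : (0 : ℝ) ≤ (l : ℝ) := Nat.cast_nonneg l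
  show nrm g.1 ≤ (M : ℝ)
  nlinarith

private theorem wtop_pert (h1 : S_nrm) (h3 : S_rc) (h4 : S_balls) (M : ℕ) (a : Ty) (l : ℕ) :
    geoSL.B 9 * winS M a (l + 1) * geoSL.B 9 ⊆ winS M a l := by
  obtain ⟨hn0, -⟩ := h1
  obtain ⟨-, -, -, hpgq, -⟩ := h3
  obtain ⟨hpos, -, -, -, -, -, -, h9, -⟩ := h4
  rintro _ ⟨_, ⟨p, hp, g, hg, rfl⟩, q, hq, rfl⟩
  have ht0 : 0 ≤ rB 9 := (hpos 9).le
  obtain ⟨w1, w2, w3, w4⟩ := hg
  push_cast at w1 w2 w3 w4
  have hl0 : (0 : ℝ) ≤ (l : ℝ) := Nat.cast_nonneg l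
  have hn : 0 ≤ nrm g.1 := hn0 g.1
  have hl : l + 1 < 156 := by
    by_contra hcon
    have h156 : (156 : ℝ) ≤ (l : ℝ) + 1 := by
      have : 156 ≤ l + 1 := Nat.le_of_not_lt hcon
      exact_mod_cast this
    have hrow : 0 ≤ rowN (aα a) g.1 := Real.sqrt_nonneg _
    have : (156 / 1000 - ((l : ℝ) + 1) / 1000) * nrm g.1 ≤ 0 :=
      mul_nonpos_of_nonpos_of_nonneg (by linarith) hn
    linarith
  have hl1 : (l : ℝ) + 1 ≤ 155 := by
    have : l + 1 ≤ 155 := by omega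
    exact_mod_cast this
  obtain ⟨e1, -, e3, e4⟩ := hpgq (rB 9) (aα a) p g q ht0 hp hq
  obtain ⟨-, e2, -, -⟩ := hpgq (rB 9) (aβ a.2) p g q ht0 hp hq
  have h10 : (1 + rB 9) ^ 2 ≤ (1 + 1 / 10 ^ 4) ^ 2 := pow_le_pow_left₀ (by linarith) (by linarith) 2
  have h11 : (1 + 1 / 10 ^ 4 : ℝ) ^ 2 ≤ 1 + 21 / 10 ^ 5 := by norm_num
  have hv : (1 + rB 9) ^ 2 ≤ 1 + 21 / 10 ^ 5 := h10.trans h11
  have hn' : 0 ≤ nrm (p * g * q).1 := hn0 _
  have hlow : nrm g.1 ≤ (1 + 21 / 10 ^ 5) * nrm (p * g * q).1 :=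
    e3.trans (mul_le_mul_of_nonneg_right hv hn')
  have hup : nrm (p * g * q).1 ≤ (1 + 21 / 10 ^ 5) * nrm g.1 :=
    e4.trans (mul_le_mul_of_nonneg_right hv hn)
  have hb : 10 ^ 4 * (1 + (l : ℝ) / 1000) < nrm (p * g * q).1 := by
    nlinarith
  have hb0 : 0 < nrm (p * g * q).1 := by
    have : 0 < 10 ^ 4 * (1 + (l : ℝ) / 1000) := by positivity
    linarith
  refine ⟨?_, ?_, hb, ?_⟩
  · exact wtop_num ht0 h9 (c := 156 / 1000 - ((l : ℝ) + 1) / 1000) (by linarith) (by linarith)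
      w1 hn e1 e3 hb0 (by ring)
  · exact wtop_num ht0 h9 (c := 175 / 1000 - ((l : ℝ) + 1) / 1000) (by linarith) (by linarith)
      w2 hn e2 e3 hb0 (by ring)
  · have h12 : nrm (p * g * q).1 * (1 + (l : ℝ) / 1000) ≤
        ((1 + 21 / 10 ^ 5) * nrm g.1) * (1 + (l : ℝ) / 1000) :=
      mul_le_mul_of_nonneg_right hup (by positivity)
    have h13 : ((1 + 21 / 10 ^ 5) * nrm g.1) * (1 + (l : ℝ) / 1000) =
        nrm g.1 * ((1 + 21 / 10 ^ 5) * (1 + (l : ℝ) / 1000)) := by ring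
    have h14 : (1 + 21 / 10 ^ 5) * (1 + (l : ℝ) / 1000) ≤ 1 + ((l : ℝ) + 1) / 1000 := by
      norm_num
      linarith
    have h15 := mul_le_mul_of_nonneg_left h14 hn
    show nrm (p * g * q).1 * (1 + (l : ℝ) / 1000) < (M : ℝ)
    linarith

/-- Module wtop. -/
theorem twtop : S_nrm → S_Bs → S_rc → S_balls → S_wtop := by
  intro h1 h2 h3 h4
  refine ⟨wtop_open h1 h3, wtop_cpt h1 h2, wtop_pert h1 h3 h4, ?_, ?_⟩
  · intro M a
    have hcn : Continuous nrm := h1.2.2.2.2.2.2.2.2.2.1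
    have c0 : Continuous (fun g : SL2 => nrm g.1) := hcn.comp wtop_cont
    exact (wtop_open h1 h3 M a 2).inter
      ((isOpen_lt continuous_const c0).inter (isOpen_lt c0 continuous_const))
  · intro M a l g hg g' hgg
    have hs : ∀ (c : ℝ) (A : M2), nrm (c • A) = |c| * nrm A := h1.2.2.2.2.1
    have hneg : nrm (-g.1) = nrm g.1 := by
      have h5 := hs (-1) g.1
      rw [neg_one_smul, abs_neg, abs_one, one_mul] at h5
      exact h5
    obtain ⟨-, -, h6, -⟩ := h3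
    obtain ⟨w1, w2, w3, w4⟩ := hg
    refine ⟨?_, ?_, ?_, ?_⟩
    · rw [hgg, hneg, (h6 (aα a) g.1).2.2.1]
      exact w1
    · rw [hgg, hneg, (h6 (aβ a.2) g.1).2.2.2]
      exact w2
    · rw [hgg, hneg]
      exact w3
    · rw [hgg, hneg]
      exact w4

end Pool.Agent.MPEF
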